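import Pool.Agent.Run7.h238.X.LSer

/-!
# The `L`-series of `y² + y = x³` and `y² + q y = x³` over a cubic field
-/

set_option autoImplicit false
set_option linter.unusedVariables false
set_option linter.unusedSectionVars false

open scoped Classical

namespace Run7.h238.R

open Finset NumberField IsDedekindDomain
open Pool.Agent.W189.NF (aV eV)
open Pool.Agent.H921R2.TatePole (nm two_le_nm)
open Pool.Agent.Y696.CTK (ED)
open Pool.Agent.Y696 (HBd)
open Pool.Agent.N883.FG (hbd_all euler_one fac exists_bg)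
open Pool.Agent.R432.V (ef qv cn qv_eq)
open Run7.h707.TE (od od_zero od_of_notMem od_le add_F)
open Run7.h238.X (fac_an fac_ne fac_good od_unr)

variable {L : Type} [Field L] [NumberField L]

/-- the order of `3` at a place of a cubic field -/
theorem od_three (hd : Module.finrank ℚ L = 3) (v : HeightOneSpectrum (𝓞 L))
    (h : (3 : 𝓞 L) ∈ v.asIdeal) : 1 ≤ od v (3 : 𝓞 L) ∧ od v (3 : 𝓞 L) ≤ 3 := by
  have h30 : (3 : 𝓞 L) ≠ 0 := by norm_num
  have hN : Ideal.absNorm (Ideal.span {(3 : 𝓞 L)}) = 3 ^ 3 := by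
    rw [Ideal.absNorm_span_singleton]
    have e : Algebra.norm ℤ (3 : 𝓞 L) = 3 ^ 3 := by
      have h1 := Algebra.norm_natCast (R := ℤ) (S := 𝓞 L) 3
      rw [RingOfIntegers.rank, hd] at h1
      exact_mod_cast h1
    rw [e]
    rfl
  have h1 : v.asIdeal ∣ Ideal.span {(3 : 𝓞 L)} := by
    rw [Ideal.dvd_span_singleton]
    exact h
  have h2 : Ideal.absNorm v.asIdeal ∣ 3 ^ 3 := by
    rw [← hN]
    exact Ideal.absNorm_dvd_absNorm_of_le (Ideal.le_of_dvd h1)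
  obtain ⟨f, hf, hfv⟩ := (Nat.dvd_prime_pow Nat.prime_three).1 h2
  have hf0 : f ≠ 0 := by
    rintro rfl
    rw [pow_zero, Ideal.absNorm_eq_one_iff] at hfv
    exact v.isPrime.ne_top hfv
  constructor
  · by_contra hc
    have h3 : od v (3 : 𝓞 L) = 0 := by omega
    exact (od_zero v h30).1 h3 h
  · have h3 : v.asIdeal ^ od v (3 : 𝓞 L) ∣ Ideal.span {(3 : 𝓞 L)} := by
      rw [Ideal.dvd_span_singleton]
      exact (od_le v h30).1 le_rfl
    have h4 : (Ideal.absNorm v.asIdeal) ^ od v (3 : 𝓞 L) ∣ 3 ^ 3 := by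
      rw [← hN, ← map_pow]
      exact Ideal.absNorm_dvd_absNorm_of_le (Ideal.le_of_dvd h3)
    rw [hfv, ← pow_mul] at h4
    have h5 := (Nat.pow_dvd_pow_iff_le_right (by norm_num : 1 < 3)).1 h4
    have h6 : od v (3 : 𝓞 L) ≤ f * od v (3 : 𝓞 L) := Nat.le_mul_of_pos_left _ (by omega)
    omega

/-- the places of bad reduction of `y² + y = x³` -/
theorem bad_one (hd : Module.finrank ℚ L = 3) (v : HeightOneSpectrum (𝓞 L))
    (hv : 3 * ((1 : ℕ) : 𝓞 L) ∈ v.asIdeal) :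
    aV (ED (((1 : ℕ) : 𝓞 L) : L)) v = 0 ∧ eV (ED (((1 : ℕ) : 𝓞 L) : L)) v = 0 := by
  have h1 : (((1 : ℕ) : 𝓞 L)) ≠ 0 := Nat.cast_ne_zero.2 one_ne_zero
  refine add_F h1 ?_
  have h3 : (3 : 𝓞 L) ∈ v.asIdeal := by
    rw [Nat.cast_one, mul_one] at hv
    exact hv
  obtain ⟨e1, e2⟩ := od_three hd v h3
  have e3 : od v ((1 : ℕ) : 𝓞 L) = 0 := by
    rw [Nat.cast_one]
    exact Run7.h707.TE.od_one v
  rw [e3]
  omega

/-- the places of bad reduction of `y² + q y = x³` -/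
theorem bad_q3 {q : ℕ} (hq : q.Prime) (hq3 : q ≠ 3) (hd : Module.finrank ℚ L = 3)
    (hqd : ¬ (q : ℤ) ∣ discr L) (v : HeightOneSpectrum (𝓞 L))
    (hv : 3 * ((q : ℕ) : 𝓞 L) ∈ v.asIdeal) :
    aV (ED (((q : ℕ) : 𝓞 L) : L)) v = 0 ∧ eV (ED (((q : ℕ) : 𝓞 L) : L)) v = 0 := by
  have hq0 : ((q : ℕ) : 𝓞 L) ≠ 0 := Nat.cast_ne_zero.2 hq.ne_zero
  refine add_F hq0 ?_
  have key : ¬ ((3 : 𝓞 L) ∈ v.asIdeal ∧ ((q : ℕ) : 𝓞 L) ∈ v.asIdeal) := by
    rintro ⟨a, b⟩
    apply v.isPrime.ne_top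
    rw [Ideal.eq_top_iff_one]
    obtain ⟨x, y, hxy⟩ : ∃ x y : ℤ, x * 3 + y * q = 1 := by
      have hc : IsCoprime ((3 : ℕ) : ℤ) ((q : ℕ) : ℤ) :=
        Nat.isCoprime_iff_coprime.2 ((Nat.coprime_primes Nat.prime_three hq).2 hq3.symm)
      obtain ⟨x, y, h⟩ := hc
      exact ⟨x, y, by exact_mod_cast h⟩
    have h1 : (1 : 𝓞 L) = (x : 𝓞 L) * 3 + (y : 𝓞 L) * ((q : ℕ) : 𝓞 L) := by
      have h2 := congrArg (fun z : ℤ => (z : 𝓞 L)) hxy
      push_cast at h2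
      exact h2.symm
    rw [h1]
    exact v.asIdeal.add_mem (v.asIdeal.mul_mem_left _ a) (v.asIdeal.mul_mem_left _ b)
  rcases v.isPrime.mem_or_mem hv with h | h
  · obtain ⟨e1, e1'⟩ := od_three hd v h
    have e2 : od v ((q : ℕ) : 𝓞 L) = 0 := od_of_notMem v fun h' => key ⟨h, h'⟩
    rw [e2]
    omega
  · have e1 : od v (3 : 𝓞 L) = 0 := od_of_notMem v fun h' => key ⟨h', h⟩
    have e2 : od v ((q : ℕ) : 𝓞 L) = 1 := od_unr hq hqd v h
    rw [e1, e2]
    norm_num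

/-- **The `L`-series of Mathlib.** -/
theorem lserG {c n : ℕ}
    (hbad : ∀ v : HeightOneSpectrum (𝓞 L), 3 * ((c : ℕ) : 𝓞 L) ∈ v.asIdeal →
      aV (ED (((c : ℕ) : 𝓞 L) : L)) v = 0 ∧ eV (ED (((c : ℕ) : 𝓞 L) : L)) v = 0)
    (hn : n ≠ 0) {G : ℂ → ℂ} (hG : Differentiable ℂ G)
    (hG1 : G 1 ≠ 0)
    (hP : ∀ s : ℂ, 3 / 2 < s.re →
      HasProd (fun p : {p : HeightOneSpectrum (𝓞 L) |
        ((3 * c * n : ℕ) : 𝓞 L) ∉ p.asIdeal} => ef ((c : ℕ) : 𝓞 L) s p.1) (G s)) :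
    ∃ Λ : ℂ → ℂ, AnalyticOnNhd ℂ Λ {s | (1 / 2 : ℝ) < s.re} ∧ Λ 1 ≠ 0 ∧
      ∀ s : ℂ, 3 / 2 < s.re → Λ s = (ED ((c : ℕ) : L)).LSeries s := by
  have hbd := fun v => hbd_all hbad v
  set T := (Pool.Agent.R432.JG.fin_places (L := L) n hn).toFinset with hT
  have hTm : ∀ v, v ∈ T ↔ (n : 𝓞 L) ∈ v.asIdeal := by
    intro v
    simp [hT]
  set Q : 𝓞 L := ((c : ℕ) : 𝓞 L) with hQ
  refine ⟨fun s => G s * ∏ v ∈ T, fac Q v ((nm v : ℂ) ^ (-s)), ?_, ?_, ?_⟩
  · intro s hs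
    refine (hG.analyticAt s).mul ?_
    exact Finset.analyticAt_fun_prod T fun v _ => fac_an (hbd v) hs
  · refine mul_ne_zero hG1 (Finset.prod_ne_zero_iff.2 fun v _ => fac_ne (hbd v) ?_)
    norm_num
  · intro s hs
    have h1 := euler_one hbad 0 (s := s) (by simpa using hs)
    have e0 : (((0 : ℕ) : ℂ)) = 0 := Nat.cast_zero
    simp only [pow_zero, one_mul, e0, sub_zero] at h1
    have hQc : ((Q : 𝓞 L) : L) = ((c : ℕ) : L) := by
      rw [hQ]
      push_cast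
      rfl
    rw [hQc] at h1
    have f1 := (hasProd_subtype_iff_mulIndicator (f := fun v => ef Q s v)
      (s := {p : HeightOneSpectrum (𝓞 L) | ((3 * c * n : ℕ) : 𝓞 L) ∉ p.asIdeal})).1 (hP s hs)
    have f2 : HasProd (fun v => if v ∈ T then fac Q v ((nm v : ℂ) ^ (-s)) else 1)
        (∏ v ∈ T, fac Q v ((nm v : ℂ) ^ (-s))) := by
      have h2 : HasProd (fun v => if v ∈ T then fac Q v ((nm v : ℂ) ^ (-s)) else 1)
          (∏ v ∈ T, if v ∈ T then fac Q v ((nm v : ℂ) ^ (-s)) else 1) :=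
        hasProd_prod_of_ne_finset_one fun v hv => if_neg hv
      rwa [Finset.prod_congr rfl fun v hv => if_pos hv] at h2
    have h3 := f1.mul f2
    refine h3.unique (h1.congr_fun fun v => ?_)
    have hB : ((3 * c * n : ℕ) : 𝓞 L) = 3 * Q * (n : 𝓞 L) := by
      rw [hQ]
      push_cast
      ring
    by_cases hv : v ∈ T
    · have hv' := (hTm v).1 hv
      rw [if_pos hv, Set.mulIndicator_of_notMem, one_mul]
      intro h
      apply h
      rw [hB]
      exact v.asIdeal.mul_mem_left _ hv'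
    · have hv' := fun h => hv ((hTm v).2 h)
      rw [if_neg hv, mul_one]
      by_cases hb : 3 * Q ∈ v.asIdeal
      · rw [Set.mulIndicator_of_notMem]
        · obtain ⟨a1, a2⟩ := hbad v hb
          unfold fac
          rw [a1, a2]
          simp
        · intro h
          apply h
          rw [hB]
          exact v.asIdeal.mul_mem_right _ hb
      · rw [Set.mulIndicator_of_mem]
        · exact (fac_good (fun h => hb (v.asIdeal.mul_mem_right _ h))
            (fun h => hb (v.asIdeal.mul_mem_left _ h)) s).symm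
        · intro h
          rw [hB] at h
          rcases v.isPrime.mem_or_mem h with h4 | h4
          · exact hb h4
          · exact hv' h4

end Run7.h238.R
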