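import Pool.Agent.Run7.h238.R.Box

/-!
# The weighted sum over the boxes, for the square system
-/

set_option autoImplicit false
set_option linter.unusedVariables false

open scoped Classical

namespace Run7.h238.R

open Finset
open Pool.Agent.Y703.CX
open Pool.Agent.Y699.E (ez)
open Pool.Agent.Y911.CX (ph ky TT mem_TT harm_TT le_XX mod93 sm_la_card sm_la_prod CC mem_CC
  sm_fill la_fill ph_fill im_fill ky_fill inj_fill inj_ph CC_facts root12 prs_card card_sub sum_un)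
open Run7.h238.WFew (wt wt_nonneg wt_mono wt_union wt_card)
open Run7.h238.C (RW KP SP rr_iff rr_facts key_bij hb_box card_ky prod_mod)
open Run7.h238.X (F3 lx ex ex_u ex_p sg sg_ne A1 pw)

/-- the number of the good signs -/
noncomputable def fR (h : ℕ → F3) (S : Finset ℕ) : ℝ :=
  ((S.powerset.filter fun A => GdR h (sg A) S).card : ℝ)

theorem fR_nonneg (h : ℕ → F3) (S : Finset ℕ) : 0 ≤ fR h S := Nat.cast_nonneg _

theorem gdRP_congr {ι : Type} [Fintype ι] {g s s' : ℕ → F3} {S₀ : Finset ℕ}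
    (hs : ∀ u ∈ S₀, s u = s' u) (sI : ι → F3) (β : ι → ((S₀ → F3) × (S₀ → F3)) × F3)
    (α : prs (univ : Finset ι) → F3) : GdRP g s sI S₀ β α ↔ GdRP g s' sI S₀ β α := by
  have e1 : mA g s S₀ = mA g s' S₀ := by
    funext u v
    cases u with
    | none => rfl
    | some u =>
      cases v with
      | none => rfl
      | some v =>
        show s v * lam v u = s' v * lam v u
        rw [hs v v.2]
  have e2 : mC s S₀ β = mC s' S₀ β := by
    funext k u
    cases u with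
    | none => rfl
    | some u =>
      show s u * (β k).1.1 u = s' u * (β k).1.1 u
      rw [hs u u.2]
  unfold GdRP
  rw [e1, e2]

theorem fR_le (h : ℕ → F3) (S : Finset ℕ) : fR h S ≤ 2 ^ S.card := by
  unfold fR
  have := card_filter_le S.powerset fun A => GdR h (sg A) S
  rw [card_powerset] at this
  exact_mod_cast this

theorem boxR_dec (hEQ : S_EQ) (hLA : S_LA) (h : ℕ → F3) (sU : ℕ → F3) (ι : Type) [Fintype ι]
    [inst : DecidableEq ι] (hι : Nonempty ι) (sI : ι → F3)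
    (C : ι → Finset ℕ) (X : ι → ℕ) (κ : ℝ) (S₀ : Finset ℕ) (hκ : 0 ≤ κ)
    (hCX : ∀ i, (C i).card ≤ X i) (hHB : HB univ C X κ)
    (hsU : ∀ u ∈ S₀, sU u ≠ 0) (hsI : ∀ i, sI i ≠ 0)
    (hdis : ∀ i l, i ≠ l → Disjoint (C i) (C l)) :
    |(((Fintype.piFinset C).filter fun p => Nr h S₀ (univ.image p) ∧
        GdRP h sU sI S₀ (fun i => lx h S₀ (p i))
          (fun e : prs (univ : Finset ι) => lam (p e.1.1) (p e.1.2))).card : ℝ) -
      c3 * (((Fintype.piFinset C).filter fun p => Nr h S₀ (univ.image p)).card : ℝ)| ≤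
    (2 * (3 ^ (S₀.card + 1) / 3 ^ Fintype.card ι)) *
      (((Fintype.piFinset C).filter fun p => Nr h S₀ (univ.image p)).card : ℝ) +
    3 ^ ((2 * S₀.card + 1) * Fintype.card ι + (prs (univ : Finset ι)).card) *
      (κ * ∏ j, (X j : ℝ)) := by
  have e1 : inst = fun a b => Classical.propDecidable _ := Subsingleton.elim _ _
  subst e1
  exact boxR hEQ hLA h sU ι hι sI C X κ S₀ hκ hCX hHB hsU hsI hdis

/-- one key, one choice of signs -/
theorem per_signs (hEQ : S_EQ) (hLA : S_LA) {g : ℕ → F3} {X z H K V : ℕ}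
    (hH : 1 ≤ H) {κ : ℝ} (hκ : 0 ≤ κ)
    {S₀ : Finset ℕ} {J : Finset (ℕ × ℕ)} (hk : KP ∅ X z H K V S₀ J)
    (hHB : HB (univ : Finset J) (fun i : J => CC z H i) (fun i => XX H i.1.1) κ)
    {A₀ : Finset ℕ} (hA₀ : A₀ ⊆ S₀) (A₁ : Finset (ℕ × ℕ)) :
    |(((RW ∅ X z H K V).filter fun S => ky z H S = (S₀, J) ∧
        (Nr g (sm z S) (la z S) ∧ GdR g (sg (A₀ ∪ A1 z H A₁ S)) S)).card : ℝ) -
      c3 * (((RW ∅ X z H K V).filter fun S => ky z H S = (S₀, J) ∧
        Nr g (sm z S) (la z S)).card : ℝ)| ≤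
    2 * (1 / 3 : ℝ) ^ V *
      (((RW ∅ X z H K V).filter fun S => ky z H S = (S₀, J)).card : ℝ) +
      (3 ^ (12 * K ^ 2) * κ) * (X / ((∏ p ∈ S₀, p : ℕ) : ℝ)) := by
  have hlarge : ∀ i : J, ∀ p ∈ CC z H i, p ∉ S₀ := by
    intro i p hp h
    obtain ⟨-, h3', -, -⟩ := CC_facts hH hp
    have := hk.le p h
    omega
  have hne : Nonempty J := by
    rw [← Fintype.card_pos_iff, Fintype.card_coe]
    have := hk.few
    omega
  have hbox := boxR_dec hEQ hLA g (sg A₀) J hne (fun i => if i.1 ∈ A₁ then 1 else -1)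
    (fun i => CC z H i) (fun i => XX H i.1.1) κ S₀ hκ
    (fun i => by
      refine (Finset.card_filter_le _ _).trans ?_
      rw [Nat.card_Icc]
      omega)
    hHB (fun u _ => sg_ne _ _)
    (fun i => by split_ifs <;> decide)
    (fun i l hil => by
      rw [Finset.disjoint_left]
      intro p hp hp'
      have h5 := ((mem_CC hH).1 hp).2.2
      have h6 := ((mem_CC hH).1 hp').2.2
      exact hil (Subtype.ext (h5.symm.trans h6)))
  have hT : ∀ t ∈ (∅ : Finset ℕ), t ≤ z := fun t ht => absurd ht (notMem_empty t)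
  have e1 : ((Fintype.piFinset fun i : J => CC z H i).filter fun p => Nr g S₀ (univ.image p) ∧
      GdRP g (sg A₀) (fun i : J => if i.1 ∈ A₁ then 1 else -1) S₀ (fun i => lx g S₀ (p i))
          (fun e : prs (univ : Finset J) => lam (p e.1.1) (p e.1.2))).card =
      ((RW ∅ X z H K V).filter fun S => ky z H S = (S₀, J) ∧
        (Nr g (sm z S) (la z S) ∧ GdR g (sg (A₀ ∪ A1 z H A₁ S)) S)).card := by
    rw [← key_bij hH hT hk (fun S => Nr g (sm z S) (la z S) ∧
      GdR g (sg (A₀ ∪ A1 z H A₁ S)) S)]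
    congr 1
    refine Finset.filter_congr fun p hp => ?_
    rw [Fintype.mem_piFinset] at hp
    have hd : ∀ i, p i ∉ S₀ := fun i => hlarge i _ (hp i)
    have hinj : Function.Injective p := by
      intro i j hij
      have h1 := ph_fill hH hp i
      have h2 := ph_fill hH hp j
      rw [hij, h2] at h1
      exact Subtype.ext h1.symm
    rw [sm_fill hH hk.le hp, la_fill hH hk.le hp]
    refine and_congr_right fun _ => ?_
    rw [gdR_iff hne hinj hd]
    have hA1 : ∀ x, x ∈ A1 z H A₁ (S₀ ∪ univ.image p) ↔ ∃ i : J, p i = x ∧ i.1 ∈ A₁ := by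
      intro x
      unfold A1
      rw [mem_filter, la_fill hH hk.le hp, mem_image]
      constructor
      · rintro ⟨⟨i, -, rfl⟩, h⟩
        rw [ph_fill hH hp i] at h
        exact ⟨i, rfl, h⟩
      · rintro ⟨i, rfl, h⟩
        rw [ph_fill hH hp i]
        exact ⟨⟨i, mem_univ _, rfl⟩, h⟩
    have f1 : (fun i => sg (A₀ ∪ A1 z H A₁ (S₀ ∪ univ.image p)) (p i)) =
        fun i : J => (if i.1 ∈ A₁ then 1 else -1 : F3) := by
      funext i
      unfold sg
      refine if_congr ?_ rfl rfl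
      rw [mem_union, hA1]
      constructor
      · rintro (h | ⟨j, hj, h⟩)
        · exact absurd (hA₀ h) (hd i)
        · rw [← hinj hj]
          exact h
      · intro h
        exact Or.inr ⟨i, rfl, h⟩
    have f2 : ∀ u ∈ S₀, sg (A₀ ∪ A1 z H A₁ (S₀ ∪ univ.image p)) u = sg A₀ u := by
      intro u hu
      unfold sg
      refine if_congr ?_ rfl rfl
      rw [mem_union, hA1]
      constructor
      · rintro (h | ⟨j, hj, h⟩)
        · exact h
        · exact absurd (hj ▸ hu) (hd j)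
      · exact Or.inl
    rw [f1]
    exact (gdRP_congr f2 _ _ _).symm
  have e2 : ((Fintype.piFinset fun i : J => CC z H i).filter fun p =>
      Nr g S₀ (univ.image p)).card = ((RW ∅ X z H K V).filter fun S => ky z H S = (S₀, J) ∧
        Nr g (sm z S) (la z S)).card := by
    rw [← key_bij hH hT hk (fun S => Nr g (sm z S) (la z S))]
    congr 1
    refine Finset.filter_congr fun p hp => ?_
    rw [Fintype.mem_piFinset] at hp
    rw [sm_fill hH hk.le hp, la_fill hH hk.le hp]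
  rw [e1, e2] at hbox
  have hcJ : Fintype.card J = J.card := Fintype.card_coe J
  have hcard := hk.card
  have hJK : J.card ≤ K := by omega
  have hSK : S₀.card ≤ K := by omega
  refine hbox.trans (add_le_add ?_ ?_)
  · have h3 : 2 * ((3 : ℝ) ^ (S₀.card + 1) / 3 ^ Fintype.card J) ≤ 2 * (1 / 3 : ℝ) ^ V := by
      refine mul_le_mul_of_nonneg_left ?_ (by norm_num)
      rw [div_le_iff₀ (by positivity), hcJ]
      have hfew := hk.few
      rw [card_empty] at hfew
      have h4 : (3 : ℝ) ^ (S₀.card + 1 + V) ≤ 3 ^ J.card :=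
        pow_le_pow_right₀ (by norm_num) (by omega)
      have h5 : (1 / 3 : ℝ) ^ V * 3 ^ (S₀.card + 1 + V) = 3 ^ (S₀.card + 1) := by
        rw [pow_add _ (S₀.card + 1) V, mul_comm, mul_assoc, ← mul_pow]
        norm_num
      calc (3 : ℝ) ^ (S₀.card + 1) = (1 / 3 : ℝ) ^ V * 3 ^ (S₀.card + 1 + V) := h5.symm
        _ ≤ _ := by gcongr
    have h4 : (((RW ∅ X z H K V).filter fun S => ky z H S = (S₀, J) ∧
        Nr g (sm z S) (la z S)).card : ℝ) ≤
        (((RW ∅ X z H K V).filter fun S => ky z H S = (S₀, J)).card : ℝ) := by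
      have : (RW ∅ X z H K V).filter (fun S => ky z H S = (S₀, J) ∧ Nr g (sm z S) (la z S)) ⊆
          (RW ∅ X z H K V).filter fun S => ky z H S = (S₀, J) := by
        intro S hS
        rw [Finset.mem_filter] at hS ⊢
        exact ⟨hS.1, hS.2.1⟩
      exact_mod_cast Finset.card_le_card this
    have h5 : (0 : ℝ) ≤ 2 * (1 / 3 : ℝ) ^ V := by positivity
    exact mul_le_mul h3 h4 (Nat.cast_nonneg _) h5
  · have hpr : (prs (univ : Finset J)).card ≤ K * K := by
      refine (prs_card _).trans ?_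
      rw [hcJ]
      exact Nat.mul_le_mul hJK hJK
    have hexp : (2 * S₀.card + 1) * Fintype.card J + (prs (univ : Finset J)).card ≤ 12 * K ^ 2 := by
      rw [hcJ]
      have h5 : (2 * S₀.card + 1) * J.card ≤ (2 * K + 1) * K :=
        Nat.mul_le_mul (by omega) hJK
      have h6 : K ≤ K * K := Nat.le_mul_self K
      calc (2 * S₀.card + 1) * J.card + (prs (univ : Finset J)).card ≤
            (2 * K + 1) * K + K * K := Nat.add_le_add h5 hpr
        _ = 3 * (K * K) + K := by ring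
        _ ≤ 12 * (K * K) := by omega
        _ = _ := by ring
    have h5 : (3 : ℝ) ^ ((2 * S₀.card + 1) * Fintype.card J + (prs (univ : Finset J)).card) ≤
        3 ^ (12 * K ^ 2) :=
      pow_le_pow_right₀ (by norm_num) hexp
    have hN0 : (0 : ℝ) < ((∏ p ∈ S₀, p : ℕ) : ℝ) := by
      exact_mod_cast Finset.prod_pos fun p hp => (hk.pr p hp).1.pos
    have hprod : ∏ j : J, (XX H j.1.1 : ℝ) ≤ X / ((∏ p ∈ S₀, p : ℕ) : ℝ) := by
      have h5 : ∏ j : J, (XX H j.1.1 : ℝ) = ((∏ k ∈ J, XX H k.1 : ℕ) : ℝ) := by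
        rw [← Finset.prod_coe_sort J (fun k => XX H k.1)]
        push_cast
        rfl
      rw [h5, le_div_iff₀ hN0, mul_comm]
      exact_mod_cast hk.prod
    calc (3 : ℝ) ^ ((2 * S₀.card + 1) * Fintype.card J + (prs (univ : Finset J)).card) *
        (κ * ∏ j : J, (XX H j.1.1 : ℝ)) ≤
        3 ^ (12 * K ^ 2) * (κ * (X / ((∏ p ∈ S₀, p : ℕ) : ℝ))) := by gcongr
      _ = _ := by ring

/-- one key -/
theorem per_keyR (hEQ : S_EQ) (hLA : S_LA) {g : ℕ → F3} {X z H K V : ℕ}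
    (hH : 1 ≤ H) {κ : ℝ} (hκ : 0 ≤ κ)
    {S₀ : Finset ℕ} {J : Finset (ℕ × ℕ)} (hk : KP ∅ X z H K V S₀ J)
    (hHB : HB (univ : Finset J) (fun i : J => CC z H i) (fun i => XX H i.1.1) κ) :
    |∑ S ∈ (RW ∅ X z H K V).filter (fun S => ky z H S = (S₀, J) ∧
        Nr g (sm z S) (la z S)), fR g S -
      c3 * (2 ^ (S₀.card + J.card) * (((RW ∅ X z H K V).filter fun S => ky z H S = (S₀, J) ∧
        Nr g (sm z S) (la z S)).card : ℝ))| ≤
    2 ^ (S₀.card + J.card) * (2 * (1 / 3 : ℝ) ^ V *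
      (((RW ∅ X z H K V).filter fun S => ky z H S = (S₀, J)).card : ℝ) +
      (3 ^ (12 * K ^ 2) * κ) * (X / ((∏ p ∈ S₀, p : ℕ) : ℝ))) := by
  set F := (RW ∅ X z H K V).filter (fun S => ky z H S = (S₀, J) ∧
        Nr g (sm z S) (la z S)) with hF
  have e1 : ∑ S ∈ F, fR g S = ∑ A₀ ∈ S₀.powerset, ∑ A₁ ∈ J.powerset,
      (((RW ∅ X z H K V).filter fun S => ky z H S = (S₀, J) ∧
        (Nr g (sm z S) (la z S) ∧ GdR g (sg (A₀ ∪ A1 z H A₁ S)) S)).card : ℝ) := by
    have e2 : ∀ S ∈ F, fR g S = ∑ A₀ ∈ S₀.powerset, ∑ A₁ ∈ J.powerset,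
        (if GdR g (sg (A₀ ∪ A1 z H A₁ S)) S then (1 : ℝ) else 0) := by
      intro S hS
      rw [hF, mem_filter] at hS
      unfold fR
      rw [pw hS.2.1 (inj_ph (rr_facts hS.1).2.1)]
      push_cast
      rfl
    rw [sum_congr rfl e2, sum_comm]
    refine sum_congr rfl fun A₀ _ => ?_
    rw [sum_comm]
    refine sum_congr rfl fun A₁ _ => ?_
    rw [← sum_filter, sum_const, nsmul_eq_mul, mul_one]
    congr 2
    ext S
    simp only [hF, mem_filter]
    tauto
  have e3 : c3 * (2 ^ (S₀.card + J.card) * (F.card : ℝ)) =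
      ∑ A₀ ∈ S₀.powerset, ∑ A₁ ∈ J.powerset, c3 * (F.card : ℝ) := by
    rw [sum_const, sum_const, card_powerset, card_powerset, nsmul_eq_mul, nsmul_eq_mul, pow_add]
    push_cast
    ring
  rw [e1, e3, ← sum_sub_distrib]
  have h1 : ∀ A₀ ∈ S₀.powerset, |∑ A₁ ∈ J.powerset,
      (((RW ∅ X z H K V).filter fun S => ky z H S = (S₀, J) ∧
        (Nr g (sm z S) (la z S) ∧ GdR g (sg (A₀ ∪ A1 z H A₁ S)) S)).card : ℝ) -
      ∑ A₁ ∈ J.powerset, c3 * (F.card : ℝ)| ≤ ∑ A₁ ∈ J.powerset,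
      (2 * (1 / 3 : ℝ) ^ V *
      (((RW ∅ X z H K V).filter fun S => ky z H S = (S₀, J)).card : ℝ) +
      (3 ^ (12 * K ^ 2) * κ) * (X / ((∏ p ∈ S₀, p : ℕ) : ℝ))) := by
    intro A₀ hA₀
    rw [← sum_sub_distrib]
    refine (abs_sum_le_sum_abs _ _).trans (sum_le_sum fun A₁ _ => ?_)
    exact per_signs hEQ hLA hH hκ hk hHB (mem_powerset.1 hA₀) A₁
  refine (abs_sum_le_sum_abs _ _).trans ((sum_le_sum h1).trans (le_of_eq ?_))
  rw [sum_const, sum_const, card_powerset, card_powerset, nsmul_eq_mul, nsmul_eq_mul, pow_add]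
  push_cast
  ring

/-- **The weighted sum over the boxes.** -/
theorem wkeyR (hL : LamP) (hB1 : S_BIL1) (hEQ : S_EQ) (hLA : S_LA) : ∃ C : ℝ, 1 ≤ C ∧
    ∀ (g : ℕ → F3) (X z H K V N : ℕ) (κ : ℝ), 1 ≤ X → 1 ≤ H → 1 ≤ z →
    0 ≤ κ → C ≤ κ ^ 12 * z → (H : ℝ) * Real.log X < N →
    ∀ (h : Finset ℕ → ℕ → ℝ) (M : ℝ), (∀ A n, 0 ≤ h A n) → (∀ A n, h A n ≤ M) →
    |∑ S ∈ (RW ∅ X z H K V).filter (fun S => Nr g (sm z S) (la z S)),
        h (sm z S) ((∏ p ∈ S, p) % 9) * fR g S -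
      c3 * ∑ S ∈ (RW ∅ X z H K V).filter (fun S => Nr g (sm z S) (la z S)),
        h (sm z S) ((∏ p ∈ S, p) % 9) * 2 ^ S.card| ≤
    M * (2 * (1 / 3 : ℝ) ^ V * wt (RW ∅ X z H K V) +
      2 ^ K * ((9 * N + 9 : ℝ) ^ K * (3 ^ (12 * K ^ 2) * κ) * (X * (1 + Real.log X)))) := by
  obtain ⟨C₁, hC₁, h1⟩ := hB1 hL
  refine ⟨C₁, hC₁, ?_⟩
  intro g X z H K V N κ hX hH hz hκ hκz hN h M hh0 hhM
  have hT : ∀ t ∈ (∅ : Finset ℕ), t ≤ z := fun t ht => absurd ht (notMem_empty t)
  have hM : 0 ≤ M := (hh0 ∅ 0).trans (hhM ∅ 0)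
  set Q := (RW ∅ X z H K V).image (ky z H) with hQ
  set B : ℝ := 3 ^ (12 * K ^ 2) * κ with hB
  have hB0 : 0 ≤ B := by positivity
  set W : Finset ℕ × Finset (ℕ × ℕ) → ℝ := fun k =>
    h k.1 (((∏ p ∈ k.1, p) * ∏ j ∈ k.2, j.2) % 9) with hW
  have hfib : ∀ (φ : Finset ℕ → ℝ),
      ∑ S ∈ (RW ∅ X z H K V).filter (fun S => Nr g (sm z S) (la z S)),
        h (sm z S) ((∏ p ∈ S, p) % 9) * φ S =
      ∑ k ∈ Q, W k * ∑ S ∈ (RW ∅ X z H K V).filter
        (fun S => ky z H S = k ∧ Nr g (sm z S) (la z S)), φ S := by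
    intro φ
    rw [← sum_fiberwise_of_maps_to (g := ky z H) (t := Q) (by
      intro S hS
      rw [Finset.mem_filter] at hS
      exact Finset.mem_image_of_mem _ hS.1)]
    refine Finset.sum_congr rfl fun k _ => ?_
    have e1 : ((RW ∅ X z H K V).filter (fun S => Nr g (sm z S) (la z S))).filter
        (fun S => ky z H S = k) =
        (RW ∅ X z H K V).filter fun S => ky z H S = k ∧ Nr g (sm z S) (la z S) := by
      ext S
      simp only [Finset.mem_filter]
      tauto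
    rw [e1, mul_sum]
    refine sum_congr rfl fun S hS => ?_
    rw [Finset.mem_filter] at hS
    have hsm : sm z S = k.1 := by
      rw [← hS.2.1]
      rfl
    rw [hW]
    simp only
    rw [prod_mod (inj_ph (rr_facts hS.1).2.1), hS.2.1, hsm]
  have hKP : ∀ k ∈ Q, KP ∅ X z H K V k.1 k.2 := by
    intro k hk
    rw [hQ, Finset.mem_image] at hk
    obtain ⟨S, hS, rfl⟩ := hk
    obtain ⟨f1, f2, f3⟩ := rr_facts hS
    exact (rr_iff hH hT f1 (inj_ph f2)).1 hS
  have hf1 := hfib fun S => fR g S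
  have hf2 := hfib fun S => 2 ^ S.card
  have hW0 : ∀ k, 0 ≤ W k := fun k => hh0 _ _
  rw [hf1, hf2, Finset.mul_sum, ← Finset.sum_sub_distrib]
  refine (Finset.abs_sum_le_sum_abs _ _).trans ?_
  have h3 : ∀ k ∈ Q, |W k * ∑ S ∈ (RW ∅ X z H K V).filter
        (fun S => ky z H S = k ∧ Nr g (sm z S) (la z S)), fR g S -
      c3 * (W k * ∑ S ∈ (RW ∅ X z H K V).filter
        (fun S => ky z H S = k ∧ Nr g (sm z S) (la z S)), (2 : ℝ) ^ S.card)| ≤
      M * (2 * (1 / 3 : ℝ) ^ V * (2 ^ (k.1.card + k.2.card) *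
        (((RW ∅ X z H K V).filter fun S => ky z H S = k).card : ℝ)) +
      2 ^ K * (B * (X / ((∏ p ∈ k.1, p : ℕ) : ℝ)))) := by
    intro k hk
    obtain ⟨S₀, J⟩ := k
    have hk' := hKP _ hk
    have h4 := per_keyR (g := g) (V := V) hEQ hLA hH hκ hk' (hb_box h1 hH hz hκ hκz hk'.one)
    rw [← hB] at h4
    have e2 : ∑ S ∈ (RW ∅ X z H K V).filter
        (fun S => ky z H S = (S₀, J) ∧ Nr g (sm z S) (la z S)), (2 : ℝ) ^ S.card =
        2 ^ (S₀.card + J.card) * (((RW ∅ X z H K V).filter fun S => ky z H S = (S₀, J) ∧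
        Nr g (sm z S) (la z S)).card : ℝ) := by
      rw [mul_comm, ← nsmul_eq_mul, ← sum_const]
      refine sum_congr rfl fun S hS => ?_
      rw [Finset.mem_filter] at hS
      rw [card_ky hS.1, hS.2.1]
    rw [e2]
    have e4 : W (S₀, J) * ∑ S ∈ (RW ∅ X z H K V).filter
        (fun S => ky z H S = (S₀, J) ∧ Nr g (sm z S) (la z S)), fR g S -
      c3 * (W (S₀, J) * (2 ^ (S₀.card + J.card) *
        (((RW ∅ X z H K V).filter fun S => ky z H S = (S₀, J) ∧
        Nr g (sm z S) (la z S)).card : ℝ))) = W (S₀, J) *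
      (∑ S ∈ (RW ∅ X z H K V).filter
        (fun S => ky z H S = (S₀, J) ∧ Nr g (sm z S) (la z S)), fR g S -
      c3 * (2 ^ (S₀.card + J.card) * (((RW ∅ X z H K V).filter fun S => ky z H S = (S₀, J) ∧
        Nr g (sm z S) (la z S)).card : ℝ))) := by ring
    rw [e4, abs_mul, abs_of_nonneg (hW0 _)]
    refine (mul_le_mul_of_nonneg_left h4 (hW0 _)).trans ?_
    have h5 : W (S₀, J) ≤ M := hhM _ _
    have h6 : (2 : ℝ) ^ (S₀.card + J.card) ≤ 2 ^ K :=
      pow_le_pow_right₀ (by norm_num) hk'.card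
    have h7 : 0 ≤ B * ((X : ℝ) / ((∏ p ∈ S₀, p : ℕ) : ℝ)) := by positivity
    refine (mul_le_mul_of_nonneg_right h5 (by positivity)).trans ?_
    simp only
    calc M * (2 ^ (S₀.card + J.card) * (2 * (1 / 3 : ℝ) ^ V *
        (((RW ∅ X z H K V).filter fun S => ky z H S = (S₀, J)).card : ℝ) +
        B * (X / ((∏ p ∈ S₀, p : ℕ) : ℝ)))) =
        M * (2 * (1 / 3 : ℝ) ^ V * (2 ^ (S₀.card + J.card) *
        (((RW ∅ X z H K V).filter fun S => ky z H S = (S₀, J)).card : ℝ)) +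
        2 ^ (S₀.card + J.card) * (B * (X / ((∏ p ∈ S₀, p : ℕ) : ℝ)))) := by ring
      _ ≤ _ := by
        refine mul_le_mul_of_nonneg_left (add_le_add le_rfl ?_) hM
        exact mul_le_mul_of_nonneg_right h6 h7
  refine (Finset.sum_le_sum h3).trans ?_
  rw [← Finset.mul_sum, Finset.sum_add_distrib]
  refine mul_le_mul_of_nonneg_left (add_le_add (le_of_eq ?_) ?_) hM
  · rw [← Finset.mul_sum]
    congr 1
    unfold wt
    rw [← sum_fiberwise_of_maps_to (g := ky z H) (t := Q) (s := RW ∅ X z H K V)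
      (fun S hS => Finset.mem_image_of_mem _ hS)]
    refine Finset.sum_congr rfl fun k _ => ?_
    have e2 : ∀ S ∈ (RW ∅ X z H K V).filter (fun S => ky z H S = k),
        (2 : ℝ) ^ S.card = 2 ^ (k.1.card + k.2.card) := by
      intro S hS
      rw [Finset.mem_filter] at hS
      rw [card_ky hS.1, hS.2]
    rw [sum_congr rfl e2, sum_const, nsmul_eq_mul, mul_comm]
  rw [← Finset.mul_sum]
  refine mul_le_mul_of_nonneg_left ?_ (by positivity)
  have hsub : Q ⊆ (TT X) ×ˢ ((range N ×ˢ range 9).powerset.filter fun J => J.card ≤ K) := by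
    intro k hk
    have hk' := hKP k hk
    rw [hQ, Finset.mem_image] at hk
    obtain ⟨S, hS, rfl⟩ := hk
    obtain ⟨f1, f2, f3⟩ := rr_facts hS
    rw [Finset.mem_product, Finset.mem_filter, Finset.mem_powerset]
    refine ⟨mem_TT (fun q hq => (hk'.pr q hq).1) ?_, ?_, ?_⟩
    · refine le_trans ?_ f3
      exact Nat.le_of_dvd (Finset.prod_pos fun p hp => (f1 p hp).pos)
        (Finset.prod_dvd_prod_of_subset _ _ _ (Finset.filter_subset _ _))
    · intro e he
      unfold ky at he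
      rw [Finset.mem_image] at he
      obtain ⟨q, hq, rfl⟩ := he
      have hqS := (Finset.mem_filter.1 hq).1
      have hq0 := (f1 q hqS).pos
      have hqX : q ≤ X := by
        refine le_trans ?_ f3
        exact Nat.le_of_dvd (Finset.prod_pos fun p hp => (f1 p hp).pos)
          (Finset.dvd_prod_of_mem _ hqS)
      unfold ph
      rw [Finset.mem_product, Finset.mem_range, Finset.mem_range]
      refine ⟨?_, Nat.mod_lt _ (by norm_num)⟩
      have h3 : ((jj H q : ℕ) : ℝ) < N := by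
        refine lt_of_le_of_lt (Nat.floor_le (mul_nonneg (Nat.cast_nonneg _)
          (Real.log_nonneg (by exact_mod_cast hq0)))) ?_
        refine lt_of_le_of_lt ?_ hN
        refine mul_le_mul_of_nonneg_left ?_ (Nat.cast_nonneg _)
        exact Real.log_le_log (by exact_mod_cast hq0) (by exact_mod_cast hqX)
      exact_mod_cast h3
    · have := hk'.card
      omega
  refine (Finset.sum_le_sum_of_subset_of_nonneg hsub fun _ _ _ => by positivity).trans ?_
  rw [Finset.sum_product]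
  simp only [Finset.sum_const, nsmul_eq_mul]
  rw [← Finset.mul_sum]
  have h4 : ((((range N ×ˢ range 9).powerset.filter fun J => J.card ≤ K).card : ℕ) : ℝ) ≤
      (9 * N + 9 : ℝ) ^ K := by
    have h5 := card_sub (range N ×ˢ range 9) K
    rw [Finset.card_product, Finset.card_range, Finset.card_range] at h5
    calc ((((range N ×ˢ range 9).powerset.filter fun J => J.card ≤ K).card : ℕ) : ℝ) ≤
          (((N * 9 + 1) ^ K : ℕ) : ℝ) := by exact_mod_cast h5
      _ = (N * 9 + 1 : ℝ) ^ K := by push_cast; ring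
      _ ≤ _ := by
        apply pow_le_pow_left₀ (by positivity)
        linarith
  have h5 : ∑ S ∈ TT X, B * (X / ((∏ p ∈ S, p : ℕ) : ℝ)) ≤ B * (X * (1 + Real.log X)) := by
    have h6 : ∀ S ∈ TT X, B * ((X : ℝ) / ((∏ p ∈ S, p : ℕ) : ℝ)) =
        B * X * (1 / ((∏ p ∈ S, p : ℕ) : ℝ)) := by
      intro S _
      ring
    rw [Finset.sum_congr rfl h6, ← Finset.mul_sum]
    have h7 := mul_le_mul_of_nonneg_left (harm_TT X) (mul_nonneg hB0 (Nat.cast_nonneg X))
    refine h7.trans (le_of_eq ?_)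
    ring
  have h6 : 0 ≤ ∑ S ∈ TT X, B * (X / ((∏ p ∈ S, p : ℕ) : ℝ)) :=
    Finset.sum_nonneg fun _ _ => by positivity
  rw [mul_assoc]
  exact mul_le_mul h4 h5 h6 (by positivity)

end Run7.h238.R
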