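import Pool.Agent.Run7.h238.C.Tw

/-!
# The two characters modulo `9` on primary elements
-/

set_option autoImplicit false

open scoped Classical

namespace Run7.h238.R

open Finset
open scoped ComplexConjugate
open Pool.Agent.Y692.QS (Ei w nr toC mul_re mul_im)
open Pool.Agent.Y715.T.Rec (cs)
open Pool.Agent.Y715.T.RecG (Pq)
open Pool.Agent.Y699.E
open Pool.Agent.Y703.CX
open Run7.h238.C (l3 cop cop_mul cop_one cop_prm l3_mul l3_one l3_prm prm_form im3 re3 one_im
  nine_ne nrm_nine im_per crt2 prm_of_nine jac_one_of Bd)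

/-- the norm logarithm modulo `9` -/
def hn (n : ℕ) : ZMod 3 := ((n / 3 : ℕ) : ZMod 3)

theorem hn_mul {m n : ℕ} (hm : m % 3 = 1) (hk : n % 3 = 1) : hn (m * n) = hn m + hn n := by
  obtain ⟨a, rfl⟩ : ∃ a, m = 3 * a + 1 := ⟨m / 3, by omega⟩
  obtain ⟨b, rfl⟩ : ∃ b, n = 3 * b + 1 := ⟨n / 3, by omega⟩
  unfold hn
  have e1 : (3 * a + 1) * (3 * b + 1) / 3 = 3 * (a * b) + a + b := by
    have : (3 * a + 1) * (3 * b + 1) = 3 * (3 * (a * b) + a + b) + 1 := by ring
    rw [this]
    omega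
  have e2 : (3 * a + 1) / 3 = a := by omega
  have e3 : (3 * b + 1) / 3 = b := by omega
  rw [e1, e2, e3]
  push_cast
  have h0 : (3 : ZMod 3) = 0 := by decide
  rw [h0]
  ring

theorem hn_mod {m n : ℕ} (h : m % 9 = n % 9) : hn m = hn n := by
  unfold hn
  rw [ZMod.natCast_eq_natCast_iff']
  omega

theorem hn_one : hn 1 = 0 := by
  unfold hn
  simp

theorem nrm_mod {a : Ei} (h : cop a) : nrm a % 3 = 1 := by
  have h1 := nrm_eq' a
  unfold cop at h
  have h2 : (nrm a : ℤ) % 3 = 1 := by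
    rw [h1]
    have e : a.re ^ 2 - a.re * a.im + a.im ^ 2 = (a.re + a.im) ^ 2 - 3 * (a.re * a.im) := by ring
    rw [e]
    have h3 : (a.re + a.im) % 3 = 1 ∨ (a.re + a.im) % 3 = 2 := by omega
    have h4 : (a.re + a.im) ^ 2 % 3 = 1 := by
      rcases h3 with h3 | h3
      · rw [sq, Int.mul_emod, h3]; rfl
      · rw [sq, Int.mul_emod, h3]; rfl
    omega
  omega

theorem nrm_nine_mod {a b : Ei} (h : (9 : Ei) ∣ a - b) : nrm a % 9 = nrm b % 9 := by
  obtain ⟨c, hc⟩ := h
  have h9 : (9 : Ei) = ⟨9, 0⟩ := by decide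
  have hr : a.re - b.re = 9 * c.re := by
    have := congrArg QuadraticAlgebra.re hc
    rw [QuadraticAlgebra.re_sub, mul_re, h9] at this
    simpa using this
  have hi : a.im - b.im = 9 * c.im := by
    have := congrArg QuadraticAlgebra.im hc
    rw [QuadraticAlgebra.im_sub, mul_im, h9] at this
    simpa using this
  have h1 := nrm_eq' a
  have h2 := nrm_eq' b
  have h3 : (nrm a : ℤ) - nrm b = 9 * (2 * b.re * c.re + 9 * c.re ^ 2 - (b.re * c.im + c.re * b.im +
      9 * c.re * c.im) + 2 * b.im * c.im + 9 * c.im ^ 2) := by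
    rw [h1, h2]
    have er : a.re = b.re + 9 * c.re := by linarith
    have ei : a.im = b.im + 9 * c.im := by linarith
    rw [er, ei]
    ring
  omega

/-- the exponent of the character -/
def tg (j c : ZMod 3) (a : Ei) : ZMod 3 := j * l3 a + c * hn (nrm a)

theorem tg_mul (j c : ZMod 3) {a b : Ei} (ha : cop a) (hb : cop b) :
    tg j c (a * b) = tg j c a + tg j c b := by
  unfold tg
  rw [l3_mul ha hb, nrm_mul, hn_mul (nrm_mod ha) (nrm_mod hb)]
  ring

theorem tg_one (j c : ZMod 3) : tg j c 1 = 0 := by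
  unfold tg
  have : nrm (1 : Ei) = 1 := by decide
  rw [l3_one, this, hn_one]
  ring

theorem tg_per (j c : ZMod 3) {a b : Ei} (ha : prm a) (hb : prm b) (h : (9 : Ei) ∣ a - b) :
    tg j c a = tg j c b := by
  unfold tg
  rw [l3_prm ha, l3_prm hb, im_per ha hb h, hn_mod (nrm_nine_mod h)]

/-- the character modulo `9` -/
noncomputable def Tg (j c : ZMod 3) (a : Ei) : ℂ := if cop a then ez (tg j c a) else 0

theorem Tg_prm {j c : ZMod 3} {a : Ei} (h : prm a) : Tg j c a = ez (tg j c a) := by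
  unfold Tg
  rw [if_pos (cop_prm h)]

theorem Tg_mul (j c : ZMod 3) (a b : Ei) : Tg j c (a * b) = Tg j c a * Tg j c b := by
  unfold Tg
  by_cases ha : cop a
  · by_cases hb : cop b
    · rw [if_pos ha, if_pos hb, if_pos ((cop_mul a b).2 ⟨ha, hb⟩), tg_mul j c ha hb, ez_add]
    · rw [if_neg hb, if_neg fun h => hb ((cop_mul a b).1 h).2, mul_zero]
  · rw [if_neg ha, if_neg fun h => ha ((cop_mul a b).1 h).1, zero_mul]

theorem Tg_one (j c : ZMod 3) : Tg j c 1 = 1 := by
  unfold Tg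
  rw [if_pos cop_one, tg_one, ez_zero]

/-- the character attached to two elements and two exponents -/
noncomputable def xg (A B : Ei) (j c : ZMod 3) (a : Ei) : ℂ := xab A B a * Tg j c a

lemma xg_ch {A B : Ei} (hA : PS A) (hB : PS B) (j c : ZMod 3) : CH (xg A B j c) := by
  have hx := xab_ch hA hB
  refine ⟨?_, ?_, ?_⟩
  · unfold xg
    rw [hx.one, Tg_one, one_mul]
  · intro a b
    unfold xg
    rw [hx.mul, Tg_mul]
    ring
  · intro a
    unfold xg xab
    rcases jac_cases A a with h | ⟨c, h⟩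
    · left; rw [h, zero_mul, zero_mul]
    · rcases jac_cases B a with h' | ⟨c', h'⟩
      · left; rw [h', map_zero, mul_zero, zero_mul]
      · unfold Tg
        split_ifs
        · right
          rw [h, h', conj_ez, ← ez_add, ← ez_add]
          exact ez_val _
        · left; rw [mul_zero]

/-- the function on primary elements -/
noncomputable def FG (A B : Ei) (j c : ZMod 3) (a : Ei) : ℂ :=
  if prm a then jac A a * conj (jac B a) * ez (tg j c a) else 0

lemma FG_norm (A B : Ei) (j c : ZMod 3) (a : Ei) : ‖FG A B j c a‖ ≤ 1 := by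
  unfold FG
  split_ifs
  · rw [norm_mul, norm_mul, Complex.norm_conj, norm_ez, mul_one]
    exact mul_le_one₀ (jac_norm _ _) (norm_nonneg _) (jac_norm _ _)
  · simp

lemma FG_sum_eq (A B : Ei) (j c : ZMod 3) (v : ℕ) :
    ∑ d ∈ PB v, xg A B j c d = ∑ a ∈ ZB v, FG A B j c a := by
  unfold PB
  rw [sum_filter]
  refine sum_congr rfl fun a _ => ?_
  unfold FG
  by_cases h : prm a
  · rw [if_pos h, if_pos h]
    unfold xg xab
    rw [Tg_prm h]
  · rw [if_neg h, if_neg h]

/-- the sum, given a suitable multiplier -/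
lemma FG_sum_of {A B : Ei} (hA : PS A) (hB : PS B) (j c : ZMod 3) {m : Ei} (hm : prm m)
    (hmA : jac A m ≠ 0) (hmB : jac B m ≠ 0)
    (hz : jac A m * conj (jac B m) * ez (tg j c m) ≠ 1) (V : ℕ) :
    ‖∑ a ∈ ZB V, FG A B j c a‖ ≤ 3 * (81 * (nrm A * nrm B)) * (3 * Real.sqrt V + 1) := by
  have hq : 9 * (A * B) ≠ 0 := mul_ne_zero nine_ne (mul_ne_zero hA.ne hB.ne)
  have hcop : IsCoprime m (9 * (A * B)) := by
    refine IsCoprime.mul_right ?_ (IsCoprime.mul_right (jac_cop hA hmA).symm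
      (jac_cop hB hmB).symm)
    have h9 : (9 : Ei) = 3 ^ 2 := by decide
    rw [h9]
    refine IsCoprime.pow_right ?_
    obtain ⟨k, hk⟩ := hm
    exact ⟨1, -k, by linear_combination hk⟩
  have h3 := csum hq (f := FG A B j c) ?_ (FG_norm A B j c) hcop hz ?_ V
  · refine h3.trans (le_of_eq ?_)
    rw [nrm_mul, nrm_mul, nrm_nine]
    push_cast
    ring
  · intro a b hab
    unfold FG
    have e0 : (9 : Ei) ∣ a - b := (dvd_mul_right _ _).trans hab
    have e1 : (3 : Ei) ∣ a - b := Dvd.dvd.trans ⟨3, by decide⟩ e0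
    have e2 : A ∣ a - b := ((dvd_mul_right _ _).trans (dvd_mul_left _ _)).trans hab
    have e3 : B ∣ a - b := ((dvd_mul_left _ _).trans (dvd_mul_left _ _)).trans hab
    have e4 : prm a ↔ prm b := by
      unfold prm
      constructor
      · intro h
        have := dvd_sub h e1
        have e : a - 1 - (a - b) = b - 1 := by ring
        rwa [e] at this
      · intro h
        have := dvd_add h e1
        have e : b - 1 + (a - b) = a - 1 := by ring
        rwa [e] at this
    rw [jac_per hA.ne e2, jac_per hB.ne e3]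
    by_cases h : prm a
    · rw [if_pos h, if_pos (e4.1 h), tg_per j c h (e4.1 h) e0]
    · rw [if_neg h, if_neg (fun hh => h (e4.2 hh))]
  · intro a
    unfold FG
    have e4 : prm (m * a) ↔ prm a :=
      ⟨fun h => prm_cancel hm h, fun h => prm_mul hm h⟩
    by_cases h : prm a
    · rw [if_pos h, if_pos (e4.2 h), jac_mul_right hA.ne, jac_mul_right hB.ne,
        tg_mul j c (cop_prm hm) (cop_prm h), ez_add, map_mul]
      ring
    · rw [if_neg h, if_neg (fun hh => h (e4.1 hh)), mul_zero]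

/-- the multiplier, the first case -/
lemma mult1 {A B : Ei} (hA : PS A) (hB : PS B) {π : Ei} (h1 : π ∈ PD A) (h2 : π ∉ PD B) :
    ∃ c : Ei, prm c ∧ jac A c ≠ 0 ∧ jac A c ≠ 1 ∧ jac B c = 1 ∧ (9 : Ei) ∣ c - 1 := by
  classical
  have hπ := ((mem_PD hA.ne).1 h1).1
  have hS : ∀ ρ ∈ (PD A).erase π ∪ PD B, Pq ρ := by
    intro ρ hρ
    rw [mem_union] at hρ
    rcases hρ with h | h
    · exact ((mem_PD hA.ne).1 (mem_of_mem_erase h)).1
    · exact ((mem_PD hB.ne).1 h).1
  have hπS : π ∉ (PD A).erase π ∪ PD B := by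
    rw [mem_union, not_or]
    exact ⟨notMem_erase _ _, h2⟩
  set S := (PD A).erase π ∪ PD B with hSd
  have hcop : IsCoprime π (9 * ∏ ρ ∈ S, ρ) := by
    refine IsCoprime.mul_right ?_ ?_
    · have h9 : (9 : Ei) = 3 ^ 2 := by decide
      rw [h9]
      exact IsCoprime.pow_right ((hπ.prime.irreducible.coprime_iff_not_dvd).2 hπ.norm)
    · rw [IsCoprime.prod_right_iff]
      intro ρ hρ
      exact pq_cop hπ (hS ρ hρ) fun h => hπS (by rw [h]; exact hρ)
  obtain ⟨b, hb0, hb⟩ := exists_nonres hπ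
  obtain ⟨c, hc1, hc2⟩ := crt2 hcop b 1
  have hc9 : (9 : Ei) ∣ c - 1 := (dvd_mul_right _ _).trans hc2
  have hcρ : ∀ ρ ∈ S, ρ ∣ c - 1 := fun ρ hρ =>
    (Finset.dvd_prod_of_mem _ hρ).trans ((dvd_mul_left _ _).trans hc2)
  have hprm : prm c := prm_of_nine hc9 prm_one
  have hjx : jac A c = chi π c := by
    unfold jac
    rw [← mul_prod_erase (PD A) _ h1, prod_eq_one, mul_one]
    intro ρ hρ
    have hρ' := hS ρ (mem_union_left _ hρ)
    rw [chi_per hρ' (hcρ ρ (mem_union_left _ hρ)), chi_one hρ']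
  refine ⟨c, hprm, ?_, ?_, jac_one_of hB fun ρ hρ => hcρ ρ (mem_union_right _ hρ), hc9⟩
  · rw [hjx, chi_per hπ hc1, chi_of hb0]
    exact ez_ne_zero _
  · rw [hjx, chi_per hπ hc1, chi_of hb0]
    exact ez_ne hb

/-- the multiplier, the second case -/
lemma mult2 {A : Ei} (hA : PS A) {t : Ei} (ht : prm t) : ∃ c : Ei, prm c ∧ jac A c = 1 ∧
    (9 : Ei) ∣ c - t := by
  classical
  have hcop : IsCoprime (9 : Ei) (∏ ρ ∈ PD A, ρ) := by
    rw [IsCoprime.prod_right_iff]
    intro ρ hρ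
    have hρ' := ((mem_PD hA.ne).1 hρ).1
    have h9 : (9 : Ei) = 3 ^ 2 := by decide
    rw [h9]
    exact IsCoprime.pow_left ((hρ'.prime.irreducible.coprime_iff_not_dvd).2 hρ'.norm).symm
  obtain ⟨c, hc1, hc2⟩ := crt2 hcop t 1
  have hprm : prm c := prm_of_nine hc1 ht
  exact ⟨c, hprm, jac_one_of hA fun ρ hρ => (Finset.dvd_prod_of_mem _ hρ).trans hc2, hc1⟩

lemma fin_bd {A B : Ei} {j c : ZMod 3}
    (h : ∀ V : ℕ, ‖∑ a ∈ ZB V, FG A B j c a‖ ≤
      3 * (81 * (nrm A * nrm B)) * (3 * Real.sqrt V + 1)) :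
    Bd (xg A B j c) (9 * (nrm A * nrm B)) := by
  intro v hv
  rw [FG_sum_eq]
  refine (h v).trans ?_
  have h2 : (1 : ℝ) ≤ Real.sqrt v := Real.one_le_sqrt.2 (by exact_mod_cast hv)
  have h3 : (0 : ℝ) ≤ (nrm A : ℝ) * nrm B := by positivity
  push_cast
  nlinarith

/-- an element at which the exponent does not vanish -/
theorem tg_ne {j c : ZMod 3} (h : j ≠ 0 ∨ c ≠ 0) : ∃ t : Ei, prm t ∧ tg j c t ≠ 0 := by
  by_cases hc : c = 0
  · have hj : j ≠ 0 := by
      rcases h with h | h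
      · exact h
      · exact absurd hc h
    have ht : prm (1 + 3 * w) := ⟨w, by ring⟩
    refine ⟨1 + 3 * w, ht, ?_⟩
    unfold tg
    rw [l3_prm ht, hc, im3, Int.mul_ediv_cancel_left _ (by norm_num)]
    have : w.im = 1 := rfl
    rw [this]
    simpa using hj
  · have ht : prm (1 + 3 * 1) := ⟨1, by ring⟩
    refine ⟨1 + 3 * 1, ht, ?_⟩
    unfold tg
    have e1 : nrm (1 + 3 * 1 : Ei) = 16 := by decide
    have e2 : hn 16 = 2 := by
      unfold hn
      decide
    rw [l3_prm ht, im3, Int.mul_ediv_cancel_left _ (by norm_num), e1, e2, one_im]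
    simp only [Int.cast_zero, mul_zero, zero_add]
    exact mul_ne_zero hc (by decide)

/-- **the bound for the sums of the character** -/
theorem xg_bd {A B : Ei} (hA : PS A) (hB : PS B) {j c : ZMod 3} (h : A ≠ B ∨ (j ≠ 0 ∨ c ≠ 0)) :
    Bd (xg A B j c) (9 * (nrm A * nrm B)) := by
  apply fin_bd
  by_cases hAB : A = B
  · have hj : j ≠ 0 ∨ c ≠ 0 := by
      rcases h with h | h
      · exact absurd hAB h
      · exact h
    subst hAB
    obtain ⟨t, ht, hne⟩ := tg_ne hj
    obtain ⟨m, h1, h2, h3⟩ := mult2 hA ht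
    refine FG_sum_of hA hA j c h1 (by rw [h2]; exact one_ne_zero)
      (by rw [h2]; exact one_ne_zero) ?_
    rw [h2, map_one, one_mul, one_mul, tg_per j c h1 ht h3]
    exact ez_ne hne
  · have h1 : PD A ≠ PD B := by
      intro h'
      apply hAB
      rw [← hA.prod, ← hB.prod, h']
    by_cases h2 : PD A ⊆ PD B
    · have h3 : ¬ PD B ⊆ PD A := fun h => h1 (Subset.antisymm h2 h)
      obtain ⟨π, hπ, hπ'⟩ := not_subset.1 h3
      obtain ⟨m, k1, k2, k3, k4, k5⟩ := mult1 hB hA hπ hπ'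
      refine FG_sum_of hA hB j c k1 (by rw [k4]; exact one_ne_zero) k2 ?_
      rw [k4, tg_per j c k1 prm_one k5, tg_one, ez_zero, one_mul, mul_one]
      intro h'
      apply k3
      have := congrArg conj h'
      rwa [Complex.conj_conj, map_one] at this
    · obtain ⟨π, hπ, hπ'⟩ := not_subset.1 h2
      obtain ⟨m, k1, k2, k3, k4, k5⟩ := mult1 hA hB hπ hπ'
      refine FG_sum_of hA hB j c k1 k2 (by rw [k4]; exact one_ne_zero) ?_
      rw [k4, tg_per j c k1 prm_one k5, tg_one, ez_zero, map_one, mul_one, mul_one]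
      exact k3

end Run7.h238.R
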