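import Pool.Agent.Run7.h238.X.ECr
import Pool.Agent.Run7.h238.X.Cnt
import Pool.Agent.Run7.h238.R.Key
import Pool.Agent.Run7.h238.R.Tw
import Pool.Agent.N883.FF.Defs

/-!
# The kernel condition with the additional index `ω` in terms of the square system
-/

set_option autoImplicit false
set_option linter.unusedVariables false

open scoped Classical

namespace Run7.h238.R

open Finset
open Pool.Agent.Y692.QS
open Pool.Agent.Y703.CX
open Pool.Agent.Y715.T.Rec (cs)
open Pool.Agent.Y715.T.RecG (Pq cs_mul cs_congr cs_zero_iff cs_neg)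
open Pool.Agent.Y703.CT (Dt pD Ker)
open Pool.Agent.N883.FF (nq KerB pB)
open Pool.Agent.Y699.E (rec_all eq_of_dvd)
open Pool.Agent.Y405.CT (pq_star cs_starG nat_int)
open Pool.Agent.Y333.CX (pp_spec not_dvd_pq t_LAM dvd_nat)
open Run7.h238.X (F3 sg sg_ne be px exx pq_px nd_px nr_px cs_self symb2 xt xt_apply)

/-- the index type of the primes -/
abbrev Jr (S : Finset ℕ) := Bool × {p // p ∈ S}

/-- the primes -/
noncomputable def pS (S : Finset ℕ) : Jr S → Ei
  | (true, p) => pp p.1
  | (false, p) => star (pp p.1)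

/-- the exponents -/
noncomputable def eS (A S : Finset ℕ) : Jr S → ZMod 3
  | (true, p) => sg A p.1
  | (false, p) => -sg A p.1

variable {S A : Finset ℕ}

theorem pS_px (i : Jr S) : pS S i = px 2 S (some i) := by
  rcases i with ⟨b, p⟩
  cases b <;> rfl

theorem eS_exx (i : Jr S) : eS A S i = exx A S (some i) := by
  rcases i with ⟨b, p⟩
  cases b <;> rfl

theorem dt_pS (hS : ∀ p ∈ S, p.Prime ∧ p % 3 = 1) : Dt (pS S) (eS A S) where
  pq := fun i => by
    rw [pS_px]
    exact pq_px Nat.prime_two (by norm_num) hS _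
  nd := fun i j hij => by
    rw [pS_px, pS_px]
    exact nd_px Nat.prime_two (by norm_num) hS _ _ fun h => hij (Option.some.inj h)
  e0 := by
    rintro ⟨b, p⟩
    cases b
    · exact neg_ne_zero.2 (sg_ne A p.1)
    · exact sg_ne A p.1

theorem pD_pS (hS : ∀ p ∈ S, p.Prime ∧ p % 3 = 1) :
    pD (pS S) (eS A S) = ((∏ p ∈ S, p : ℕ) : Ei) * be S A := by
  unfold pD
  rw [Fintype.prod_prod_type, Fintype.prod_bool, ← Finset.prod_mul_distrib]
  have h2 : ∀ p : {p // p ∈ S}, pS S (true, p) ^ (eS A S (true, p)).val *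
      pS S (false, p) ^ (eS A S (false, p)).val =
      ((p.1 : ℕ) : Ei) * (if p.1 ∈ A then star (pp p.1) else pp p.1) := by
    intro p
    obtain ⟨-, hn⟩ := pp_spec (hS p.1 p.2).1 (hS p.1 p.2).2
    have e2 : ((p.1 : ℕ) : Ei) = pp p.1 * star (pp p.1) := by
      rw [mul_star, hn, Int.cast_natCast]
    show (pp p.1) ^ (sg A p.1).val * (star (pp p.1)) ^ (-sg A p.1).val = _
    rw [e2]
    unfold sg
    split_ifs with h
    · have v1 : (1 : ZMod 3).val = 1 := rfl
      have v2 : (-1 : ZMod 3).val = 2 := rfl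
      rw [v1, v2]
      ring
    · have v1 : (- -1 : ZMod 3).val = 1 := rfl
      have v2 : (-1 : ZMod 3).val = 2 := rfl
      rw [v1, v2]
      ring
  rw [Finset.prod_congr rfl fun p _ => h2 p,
    Finset.prod_coe_sort S (fun p => ((p : ℕ) : Ei) * (if p ∈ A then star (pp p) else pp p)),
    Finset.prod_mul_distrib]
  unfold be
  push_cast
  rfl

/-- the element with the additional factor `ω` -/
theorem pB_pS (hS : ∀ p ∈ S, p.Prime ∧ p % 3 = 1) :
    pB (pS S) (eS A S) 1 = w * (((∏ p ∈ S, p : ℕ) : Ei) * be S A) := by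
  unfold pB
  rw [pD_pS hS]
  have v1 : (1 : ZMod 3).val = 1 := rfl
  rw [v1, pow_one]

theorem nq_pS (hS : ∀ p ∈ S, p.Prime ∧ p % 3 = 1) (b : Bool) (p : {p // p ∈ S}) :
    nq (pS S (b, p)) = hn p := by
  unfold nq hn
  rw [pS_px, nr_px hS]
  have h := (hS p.1 p.2).2
  have e : (((p.1 : ℕ) : ℤ) - 1) / 3 = ((p.1 / 3 : ℕ) : ℤ) := by omega
  rw [e, Int.cast_natCast]

/-- the equation at a prime of the first kind -/
theorem eqT (v : Jr S → F3) (p : {p // p ∈ S}) :
    ∑ i, eS A S i * cs (pS S (true, p)) (pS S i) * (v i - v (true, p)) =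
    ∑ l : {p // p ∈ S}, sg A l * (cs (pp p) (pp l) * (v (true, l) - v (true, p)) -
      cs (pp p) (star (pp l)) * (v (false, l) - v (true, p))) := by
  rw [Fintype.sum_prod_type, Fintype.sum_bool, ← Finset.sum_add_distrib]
  refine Finset.sum_congr rfl fun l _ => ?_
  show sg A l * cs (pp p) (pp l) * (v (true, l) - v (true, p)) +
    -sg A l * cs (pp p) (star (pp l)) * (v (false, l) - v (true, p)) = _
  ring

/-- the equation at a prime of the second kind -/
theorem eqF (v : Jr S → F3) (p : {p // p ∈ S}) :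
    ∑ i, eS A S i * cs (pS S (false, p)) (pS S i) * (v i - v (false, p)) =
    ∑ l : {p // p ∈ S}, sg A l * (cs (star (pp p)) (pp l) * (v (true, l) - v (false, p)) -
      cs (star (pp p)) (star (pp l)) * (v (false, l) - v (false, p))) := by
  rw [Fintype.sum_prod_type, Fintype.sum_bool, ← Finset.sum_add_distrib]
  refine Finset.sum_congr rfl fun l _ => ?_
  show sg A l * cs (star (pp p)) (pp l) * (v (true, l) - v (false, p)) +
    -sg A l * cs (star (pp p)) (star (pp l)) * (v (false, l) - v (false, p)) = _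
  ring

/-- the sum and the difference of the two equations -/
theorem eqA (hS : ∀ p ∈ S, p.Prime ∧ p % 3 = 1)
    (v : Jr S → F3) (x y : {p // p ∈ S} → F3)
    (hx : ∀ p : {p // p ∈ S}, x p = v (true, p) + v (false, p))
    (hy : ∀ p : {p // p ∈ S}, y p = v (true, p) - v (false, p))
    (p : {p // p ∈ S}) :
    (∑ i, eS A S i * cs (pS S (true, p)) (pS S i) * (v i - v (true, p))) +
    (∑ i, eS A S i * cs (pS S (false, p)) (pS S i) * (v i - v (false, p))) =
      ∑ l : {p // p ∈ S}, sg A l * (lam l p * (x l - x p)) ∧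
    (∑ i, eS A S i * cs (pS S (true, p)) (pS S i) * (v i - v (true, p))) -
    (∑ i, eS A S i * cs (pS S (false, p)) (pS S i) * (v i - v (false, p))) =
      ∑ l : {p // p ∈ S}, sg A l * (lam p l * y l - lam l p * y p) := by
  rw [eqT, eqF]
  constructor
  · rw [← Finset.sum_add_distrib]
    refine Finset.sum_congr rfl fun l _ => ?_
    rcases eq_or_ne p l with rfl | hpl
    · have h2 := cs_self (hS p.1 p.2).1 (hS p.1 p.2).2
      rw [h2.1, h2.2]
      ring
    · obtain ⟨r1, r2, r3, r4⟩ := symb2 hS p.2 l.2 (fun h => hpl (Subtype.ext h))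
      rw [r2, r3, r4, hx, hx]
      ring
  · rw [← Finset.sum_sub_distrib]
    refine Finset.sum_congr rfl fun l _ => ?_
    rcases eq_or_ne p l with rfl | hpl
    · have h2 := cs_self (hS p.1 p.2).1 (hS p.1 p.2).2
      rw [h2.1, h2.2]
      ring
    · obtain ⟨r1, r2, r3, r4⟩ := symb2 hS p.2 l.2 (fun h => hpl (Subtype.ext h))
      rw [r1, r2, r3, r4, hy, hy]
      ring

/-- the matrix of the second system -/
noncomputable def M2 (g : ℕ → F3) (A S : Finset ℕ) : Matrix {p // p ∈ S} {p // p ∈ S} F3 :=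
  fun p l => sg A l * lam l p - if p = l then (∑ k : {p // p ∈ S}, sg A k * lam k p) + g p else 0

/-- the matrix of the first system -/
noncomputable def M1 (g : ℕ → F3) (A S : Finset ℕ) : Matrix {p // p ∈ S} {p // p ∈ S} F3 :=
  fun p l => sg A l * lam p l - if p = l then (∑ k : {p // p ∈ S}, sg A k * lam k p) + g p else 0

theorem M2_mul (g : ℕ → F3) (x : {p // p ∈ S} → F3) (p : {p // p ∈ S}) :
    (M2 g A S).mulVec x p =
      ∑ l : {p // p ∈ S}, sg A l * (lam l p * (x l - x p)) - g p * x p := by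
  unfold Matrix.mulVec dotProduct M2
  simp only [sub_mul, Finset.sum_sub_distrib, ite_mul, zero_mul, Finset.sum_ite_eq,
    Finset.mem_univ, if_true, add_mul, mul_sub, Finset.sum_mul]
  have e1 : ∑ l : {p // p ∈ S}, sg A l * (lam l p * x l) =
      ∑ l : {p // p ∈ S}, sg A l * lam l p * x l := sum_congr rfl fun l _ => by ring
  have e2 : ∑ l : {p // p ∈ S}, sg A l * (lam l p * x p) =
      ∑ l : {p // p ∈ S}, sg A l * lam l p * x p := sum_congr rfl fun l _ => by ring
  rw [e1, e2]
  ring

theorem M1_mul (g : ℕ → F3) (y : {p // p ∈ S} → F3) (p : {p // p ∈ S}) :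
    (M1 g A S).mulVec y p =
      ∑ l : {p // p ∈ S}, sg A l * (lam p l * y l - lam l p * y p) - g p * y p := by
  unfold Matrix.mulVec dotProduct M1
  simp only [sub_mul, Finset.sum_sub_distrib, ite_mul, zero_mul, Finset.sum_ite_eq,
    Finset.mem_univ, if_true, add_mul, mul_sub, Finset.sum_mul]
  have e1 : ∑ l : {p // p ∈ S}, sg A l * (lam p l * y l) =
      ∑ l : {p // p ∈ S}, sg A l * lam p l * y l := sum_congr rfl fun l _ => by ring
  have e2 : ∑ l : {p // p ∈ S}, sg A l * (lam l p * y p) =
      ∑ l : {p // p ∈ S}, sg A l * lam l p * y p := sum_congr rfl fun l _ => by ring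
  rw [e1, e2]
  ring

theorem sg_sq (A : Finset ℕ) (p : ℕ) : sg A p * sg A p = 1 := by
  unfold sg
  split_ifs <;> decide

theorem M1_eq (g : ℕ → F3) : M1 g A S =
    Matrix.diagonal (fun p : {p // p ∈ S} => sg A p) * (M2 g A S).transpose *
      Matrix.diagonal (fun p : {p // p ∈ S} => sg A p) := by
  ext p l
  rw [Matrix.mul_diagonal, Matrix.diagonal_mul, Matrix.transpose_apply]
  unfold M1 M2
  have h := sg_sq A p
  by_cases hpl : p = l
  · subst hpl
    rw [if_pos rfl]
    linear_combination (-(sg A p * lam p p) + ((∑ k : {p // p ∈ S}, sg A k * lam k p) + g p)) * h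
  · rw [if_neg hpl, if_neg fun h => hpl h.symm]
    linear_combination (-(sg A l * lam p l)) * h

theorem det_M1 (g : ℕ → F3) : (M1 g A S).det = 0 ↔ (M2 g A S).det = 0 := by
  rw [M1_eq, Matrix.det_mul, Matrix.det_mul, Matrix.det_transpose, Matrix.det_diagonal]
  have h : ∏ p : {p // p ∈ S}, sg A p ≠ 0 := prod_ne_zero_iff.2 fun p _ => sg_ne A p
  constructor
  · intro h2
    rcases mul_eq_zero.1 h2 with h3 | h3
    · rcases mul_eq_zero.1 h3 with h4 | h4
      · exact absurd h4 h
      · exact h4
    · exact absurd h3 h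
  · intro h2
    rw [h2, mul_zero, zero_mul]

theorem inj_iff {ι : Type} [Fintype ι] [DecidableEq ι] (M : Matrix ι ι F3) :
    (∀ x : ι → F3, M.mulVec x = 0 → x = 0) ↔ M.det ≠ 0 := by
  rw [ne_eq, ← Matrix.exists_mulVec_eq_zero_iff]
  push Not
  constructor
  · intro h x hx hM
    exact hx (h x hM)
  · intro h x hM
    by_contra hx
    exact h x hx hM

/-- the square system in terms of the matrix -/
theorem gdR_det (g : ℕ → F3) : GdR g (sg A) S ↔ (M2 g A S).det ≠ 0 := by
  rw [← inj_iff]
  have key : ∀ (x : ℕ → F3) (p : {p // p ∈ S}), ER g (sg A) S x p =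
      (M2 g A S).mulVec (fun l : {p // p ∈ S} => x l) p := by
    intro x p
    rw [M2_mul]
    unfold ER
    rw [← Finset.sum_coe_sort S]
  constructor
  · intro h x hx
    have e : (fun l : {p // p ∈ S} => xt S x l) = x := funext fun l => xt_apply x l
    have h1 := h (xt S x) (fun p hp => by
      rw [key (xt S x) ⟨p, hp⟩, e, hx]
      rfl)
    funext p
    rw [← xt_apply x p]
    exact h1 p p.2
  · intro h x hx p hp
    have h1 := h (fun l : {p // p ∈ S} => x l) (by
      funext p
      rw [← key]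
      exact hx p p.2)
    exact congrFun h1 ⟨p, hp⟩

/-- **the criterion** -/
theorem kerB_iff (hS : ∀ p ∈ S, p.Prime ∧ p % 3 = 1) :
    KerB (pS S) (eS A S) 1 ↔ GdR hn (sg A) S := by
  have two : ∀ a b : F3, a + b = 0 → a - b = 0 → a = 0 ∧ b = 0 := by decide
  rw [gdR_det]
  constructor
  · intro hk
    rw [← inj_iff]
    intro x hx
    -- the vector
    set v : Jr S → F3 := fun i => -x i.2 with hv
    have three : ∀ a : F3, a = -a + -a := by decide
    have e1 : ∀ p : {p // p ∈ S}, x p = v (true, p) + v (false, p) := fun p => three _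
    have e2 : ∀ p : {p // p ∈ S}, (0 : {p // p ∈ S} → F3) p = v (true, p) - v (false, p) := by
      intro p
      show (0 : F3) = -x p - -x p
      ring
    have h1 := hk v (by
      have h2 : ∀ p : {p // p ∈ S},
          (∑ i, eS A S i * cs (pS S (true, p)) (pS S i) * (v i - v (true, p))) -
            hn p * v (true, p) = 0 ∧
          (∑ i, eS A S i * cs (pS S (false, p)) (pS S i) * (v i - v (false, p))) -
            hn p * v (false, p) = 0 := by
        intro p
        obtain ⟨a1, a2⟩ := eqA (A := A) hS v x 0 e1 e2 p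
        have b1 := congrFun hx p
        rw [M2_mul, ← a1, e1 p] at b1
        have b2 : ∑ l : {p // p ∈ S}, sg A l * (lam p l * (0 : {p // p ∈ S} → F3) l -
            lam l p * (0 : {p // p ∈ S} → F3) p) = 0 := by
          refine sum_eq_zero fun l _ => ?_
          simp
        rw [b2] at a2
        have b3 : v (true, p) - v (false, p) = 0 := (e2 p).symm
        refine two _ _ ?_ ?_
        · have b1' : (∑ i, eS A S i * cs (pS S (true, p)) (pS S i) * (v i - v (true, p))) +
            (∑ i, eS A S i * cs (pS S (false, p)) (pS S i) * (v i - v (false, p))) -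
            hn p * (v (true, p) + v (false, p)) = 0 := b1
          linear_combination b1'
        · linear_combination a2 - hn p * b3
      rintro ⟨b, p⟩
      rw [nq_pS hS, one_mul]
      cases b
      · exact sub_eq_zero.1 (h2 p).2
      · exact sub_eq_zero.1 (h2 p).1)
    funext p
    rw [e1 p, h1, add_zero]
    rfl
  · intro hdet v hv
    have hd1 : (M1 hn A S).det ≠ 0 := fun h => hdet ((det_M1 hn).1 h)
    have i1 := (inj_iff _).2 hd1
    have i2 := (inj_iff _).2 hdet
    have h2 : ∀ p : {p // p ∈ S},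
        (∑ i, eS A S i * cs (pS S (true, p)) (pS S i) * (v i - v (true, p))) =
          hn p * v (true, p) ∧
        (∑ i, eS A S i * cs (pS S (false, p)) (pS S i) * (v i - v (false, p))) =
          hn p * v (false, p) := by
      intro p
      have a1 := hv (true, p)
      have a2 := hv (false, p)
      rw [nq_pS hS, one_mul] at a1 a2
      exact ⟨a1, a2⟩
    have hA := eqA (A := A) hS v (fun p => v (true, p) + v (false, p))
      (fun p => v (true, p) - v (false, p)) (fun _ => rfl) (fun _ => rfl)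
    have hx := i2 (fun p => v (true, p) + v (false, p)) (by
      funext p
      rw [M2_mul, ← (hA p).1, (h2 p).1, (h2 p).2]
      show _ = (0 : F3)
      ring)
    have hy := i1 (fun p => v (true, p) - v (false, p)) (by
      funext p
      rw [M1_mul, ← (hA p).2, (h2 p).1, (h2 p).2]
      show _ = (0 : F3)
      ring)
    rintro ⟨b, p⟩
    obtain ⟨z1, z2⟩ := two _ _ (congrFun hx p) (congrFun hy p)
    cases b
    · exact z2
    · exact z1

end Run7.h238.R
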