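import Pool.Agent.Run7.h238.X.KeyX

/-!
# The count in a box, for the square system with a vertex attached to the prime `3`
-/

set_option autoImplicit false
set_option linter.unusedVariables false

open scoped Classical

namespace Run7.h238.R

open Finset
open Pool.Agent.Y703.CX
open Pool.Agent.Y911.CX (lb HB_sub sum_un)
open Run7.h238.X (F3 lx ex ex_u ex_p sg sg_ne)

/-- the equation -/
noncomputable def ER (h s : ℕ → F3) (S : Finset ℕ) (x : ℕ → F3) (p : ℕ) : F3 :=
  ∑ l ∈ S, s l * (lam l p * (x l - x p)) - h p * x p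

/-- the system has only the zero solution -/
def GdR (h s : ℕ → F3) (S : Finset ℕ) : Prop :=
  ∀ x : ℕ → F3, (∀ p ∈ S, ER h s S x p = 0) → ∀ p ∈ S, x p = 0

/-- the labels are not degenerate -/
def Nr (h : ℕ → F3) (S₀ S₁ : Finset ℕ) : Prop :=
  (∀ v : S₀ → F3, v ≠ 0 → 2 ≤ (S₁.filter fun x => ∑ u : S₀, v u * lam x u ≠ 0).card) ∧
  (∀ (w : S₀ → F3) (c : F3), ¬ (w = 0 ∧ c = 0) →
    ∃ x ∈ S₁, ∑ u : S₀, w u * lam u x + c * h x ≠ 0)

/-- the same, for labels -/
def LNr {ι : Type} [Fintype ι] (S₀ : Finset ℕ)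
    (β : ι → ((S₀ → F3) × (S₀ → F3)) × F3) : Prop :=
  (∀ v : S₀ → F3, v ≠ 0 → 2 ≤ (univ.filter fun i => ∑ u : S₀, v u * (β i).1.2 u ≠ 0).card) ∧
  (∀ (w : S₀ → F3) (c : F3), ¬ (w = 0 ∧ c = 0) →
    ∃ i, ∑ u : S₀, w u * (β i).1.1 u + c * (β i).2 ≠ 0)

section
variable {ι : Type} [Fintype ι] {h sU : ℕ → F3} {S₀ : Finset ℕ} {p : ι → ℕ}

/-- the first matrix -/
noncomputable def mA (h sU : ℕ → F3) (S₀ : Finset ℕ) (u v : Option S₀) : F3 :=
  match u with
  | none => 0
  | some u => match v with
    | none => h u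
    | some v => sU v * lam v u

/-- the second matrix -/
noncomputable def mB (sI : ι → F3) (S₀ : Finset ℕ) (β : ι → ((S₀ → F3) × (S₀ → F3)) × F3)
    (u : Option S₀) (l : ι) : F3 :=
  match u with
  | none => 0
  | some u => sI l * (β l).1.2 u

/-- the third matrix -/
noncomputable def mC (sU : ℕ → F3) (S₀ : Finset ℕ) (β : ι → ((S₀ → F3) × (S₀ → F3)) × F3)
    (k : ι) (u : Option S₀) : F3 :=
  match u with
  | none => (β k).2
  | some u => sU u * (β k).1.1 u

/-- the change of variables -/
noncomputable def Ph (sI : ι → F3) (α : prs (univ : Finset ι) → F3) (e : prs (univ : Finset ι)) :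
    F3 := sI e.1.2 * Pool.Agent.Y703.CX.ext α e.1.2 e.1.1

theorem ext_Ph (sI : ι → F3) (α : prs (univ : Finset ι) → F3) {k l : ι} (hkl : k ≠ l) :
    Pool.Agent.Y703.CX.ext (Ph sI α) k l = sI l * Pool.Agent.Y703.CX.ext α l k := by
  have hm : (k, l) ∈ prs (univ : Finset ι) := by
    unfold prs
    rw [Finset.mem_filter]
    exact ⟨Finset.mem_univ _, Finset.mem_univ _, fun h => hkl h.symm⟩
  have e : Pool.Agent.Y703.CX.ext (Ph sI α) k l = Ph sI α ⟨(k, l), hm⟩ := by
    unfold Pool.Agent.Y703.CX.ext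
    rw [dif_pos hm]
  rw [e]
  rfl

theorem Ph_inj {sI : ι → F3} (hs : ∀ i, sI i ≠ 0) : Function.Injective (Ph sI) := by
  intro α β hab
  funext e
  obtain ⟨⟨k, l⟩, he⟩ := e
  have hkl : l ≠ k := by
    unfold prs at he
    rw [mem_filter] at he
    exact he.2.2
  have hm : (l, k) ∈ prs (univ : Finset ι) := by
    unfold prs
    rw [Finset.mem_filter]
    exact ⟨Finset.mem_univ _, Finset.mem_univ _, fun h => hkl h.symm⟩
  have h1 := congrFun hab ⟨(l, k), hm⟩
  unfold Ph at h1
  simp only at h1
  have h2 := mul_left_cancel₀ (hs k) h1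
  unfold Pool.Agent.Y703.CX.ext at h2
  rw [dif_pos he, dif_pos he] at h2
  exact h2

theorem Ph_card {sI : ι → F3} (hs : ∀ i, sI i ≠ 0) (Q : (prs (univ : Finset ι) → F3) → Prop) :
    (univ.filter fun α => Q (Ph sI α)).card = (univ.filter Q).card := by
  have hb : Function.Bijective (Ph sI) := Finite.injective_iff_bijective.1 (Ph_inj hs)
  apply Finset.card_bij (fun α _ => Ph sI α)
  · intro α hα
    rw [mem_filter] at hα ⊢
    exact ⟨mem_univ _, hα.2⟩
  · intro α _ β _ hab
    exact hb.1 hab
  · intro β hβ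
    obtain ⟨α, rfl⟩ := hb.2 β
    rw [mem_filter] at hβ
    exact ⟨α, by rw [mem_filter]; exact ⟨mem_univ _, hβ.2⟩, rfl⟩

/-- the system of a tuple -/
def GdRP (h sU : ℕ → F3) (sI : ι → F3) (S₀ : Finset ℕ)
    (β : ι → ((S₀ → F3) × (S₀ → F3)) × F3) (α : prs (univ : Finset ι) → F3) : Prop :=
  GdA (univ.image (some : S₀ → Option S₀)) (univ : Finset ι) (mA h sU S₀) (mB sI S₀ β)
    (mC sU S₀ β) (Pool.Agent.Y703.CX.ext (Ph sI α))

theorem gdR_iff (hne : Nonempty ι) (hp : Function.Injective p) (hd : ∀ i, p i ∉ S₀)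
    (s : ℕ → F3) :
    GdR h s (S₀ ∪ univ.image p) ↔ GdRP h s (fun i => s (p i)) S₀ (fun i => lx h S₀ (p i))
      (fun e : prs (univ : Finset ι) => lam (p e.1.1) (p e.1.2)) := by
  have key : ∀ k l, k ≠ l → Pool.Agent.Y703.CX.ext
      (fun e : prs (univ : Finset ι) => lam (p e.1.1) (p e.1.2)) k l = lam (p k) (p l) := by
    intro k l hkl
    have hm : (k, l) ∈ prs (univ : Finset ι) := by
      unfold prs
      rw [Finset.mem_filter]
      exact ⟨Finset.mem_univ _, Finset.mem_univ _, fun h => hkl h.symm⟩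
    unfold Pool.Agent.Y703.CX.ext
    rw [dif_pos hm]
  -- the sums
  have hU : ∀ (t : F3) (x : ℕ → F3) (u : S₀), ∑ v : Option S₀,
      ((match v with | none => 0 | some v => x v) + t - (x u + t)) * mA h s S₀ (some u) v =
      ∑ v : S₀, s v * (lam v u * (x v - x u)) - h u * x u := by
    intro t x u
    rw [Fintype.sum_option]
    simp only [mA]
    rw [add_comm]
    have e : ∀ v : S₀, (x v + t - (x u + t)) * (s v * lam v u) =
        s v * (lam v u * (x v - x u)) := fun v => by ring
    rw [sum_congr rfl fun v _ => e v]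
    ring
  have hB : ∀ (t : F3) (x : ℕ → F3) (u : S₀), ∑ l,
      ((x (p l) + t) - (x u + t)) * mB (fun i => s (p i)) S₀ (fun i => lx h S₀ (p i)) (some u) l =
      ∑ l, s (p l) * (lam (p l) u * (x (p l) - x u)) := by
    intro t x u
    refine sum_congr rfl fun l _ => ?_
    show ((x (p l) + t) - (x u + t)) * (s (p l) * lam (p l) u) = _
    ring
  have hC : ∀ (t : F3) (x : ℕ → F3) (k : ι), ∑ v : Option S₀,
      ((match v with | none => 0 | some v => x v) + t - (x (p k) + t)) *
        mC s S₀ (fun i => lx h S₀ (p i)) k v =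
      ∑ v : S₀, s v * (lam v (p k) * (x v - x (p k))) - h (p k) * x (p k) := by
    intro t x k
    rw [Fintype.sum_option]
    show (0 + t - (x (p k) + t)) * h (p k) + ∑ v : S₀, (x v + t - (x (p k) + t)) *
      (s v * lam v (p k)) = _
    rw [add_comm]
    have e : ∀ v : S₀, (x v + t - (x (p k) + t)) * (s v * lam v (p k)) =
        s v * (lam v (p k) * (x v - x (p k))) := fun v => by ring
    rw [sum_congr rfl fun v _ => e v]
    ring
  have hR : ∀ (t : F3) (x : ℕ → F3) (k : ι), ∑ l, ((x (p l) + t) - (x (p k) + t)) *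
      Pool.Agent.Y703.CX.ext (Ph (fun i => s (p i))
        (fun e : prs (univ : Finset ι) => lam (p e.1.1) (p e.1.2))) k l =
      ∑ l, s (p l) * (lam (p l) (p k) * (x (p l) - x (p k))) := by
    intro t x k
    refine sum_congr rfl fun l _ => ?_
    by_cases hkl : k = l
    · subst hkl
      ring
    · rw [ext_Ph _ _ hkl, key l k (Ne.symm hkl)]
      ring
  have hsolU : ∀ (x : ℕ → F3) (u : S₀), ER h s (S₀ ∪ univ.image p) x u =
      (∑ v : S₀, s v * (lam v u * (x v - x u)) - h u * x u) +
        ∑ l, s (p l) * (lam (p l) u * (x (p l) - x u)) := by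
    intro x u
    unfold ER
    rw [sum_un hp hd]
    ring
  have hsolI : ∀ (x : ℕ → F3) (k : ι), ER h s (S₀ ∪ univ.image p) x (p k) =
      (∑ v : S₀, s v * (lam v (p k) * (x v - x (p k))) - h (p k) * x (p k)) +
        ∑ l, s (p l) * (lam (p l) (p k) * (x (p l) - x (p k))) := by
    intro x k
    unfold ER
    rw [sum_un hp hd]
    ring
  constructor
  · intro hG c d h1 h2
    set t := c none with ht
    set x : ℕ → F3 := ex S₀ p (fun u => c (some u) - t) (fun l => d l - t) with hx
    have eu : ∀ u : S₀, x u + t = c (some u) := by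
      intro u
      rw [hx, ex_u]
      ring
    have el : ∀ l, x (p l) + t = d l := by
      intro l
      rw [hx, ex_p hp hd]
      ring
    have ec : ∀ v : Option S₀, (match v with | none => 0 | some v => x v) + t = c v := by
      intro v
      cases v with
      | none => simp only [zero_add]; exact ht
      | some v => exact eu v
    have h3 := hG x (by
      intro n hn
      rw [mem_union, mem_image] at hn
      rcases hn with hn | ⟨k, -, rfl⟩
      · have h4 := h1 (some ⟨n, hn⟩) (mem_image_of_mem _ (mem_univ _))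
        have h5 := hsolU x ⟨n, hn⟩
        rw [← hU t, ← hB t] at h5
        have eu' : x n + t = c (some ⟨n, hn⟩) := eu ⟨n, hn⟩
        simp only [ec, el, eu'] at h5
        rw [h4] at h5
        exact h5
      · have h4 := h2 k (mem_univ _)
        have h5 := hsolI x k
        rw [← hC t, ← hR t] at h5
        simp only [ec, el] at h5
        rw [h4] at h5
        exact h5)
    refine ⟨t, fun u => ?_, fun l => ?_⟩
    · cases u with
      | none => rfl
      | some u =>
        rw [← eu, h3 u (mem_union_left _ u.2), zero_add]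
    · rw [← el, h3 (p l) (mem_union_right _ (mem_image_of_mem _ (mem_univ _))), zero_add]
  · intro hG x hx
    obtain ⟨t, h1, h2⟩ := hG (fun v => (match v with | none => 0 | some v => x v) + 0)
      (fun l => x (p l) + 0) (by
        intro u hu
        rw [mem_image] at hu
        obtain ⟨u, -, rfl⟩ := hu
        have h5 := hsolU x u
        rw [← hU 0, ← hB 0, hx u (mem_union_left _ u.2)] at h5
        exact h5.symm) (by
        intro k _
        have h5 := hsolI x k
        rw [← hC 0, ← hR 0, hx (p k) (mem_union_right _ (mem_image_of_mem _ (mem_univ _)))] at h5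
        exact h5.symm)
    have h3 := h1 none
    simp only [add_zero] at h3
    intro n hn
    rw [mem_union, mem_image] at hn
    rcases hn with hn | ⟨k, -, rfl⟩
    · have h4 := h1 (some ⟨n, hn⟩)
      simp only [add_zero] at h4
      rw [h4, ← h3]
    · have h4 := h2 k
      simp only [add_zero] at h4
      rw [h4, ← h3]

theorem nr_iff (hp : Function.Injective p) :
    Nr h S₀ (univ.image p) ↔ LNr S₀ (fun i => lx h S₀ (p i)) := by
  unfold Nr LNr
  refine and_congr ?_ ?_
  · refine forall_congr' fun v => imp_congr_right fun _ => ?_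
    have : ((univ.image p).filter fun x => ∑ u : S₀, v u * lam x u ≠ 0).card =
        (univ.filter fun i => ∑ u : S₀, v u * (lx h S₀ (p i)).1.2 u ≠ 0).card := by
      rw [filter_image, card_image_of_injective _ hp]
      rfl
    rw [this]
  · refine forall_congr' fun v => forall_congr' fun c => imp_congr_right fun _ => ?_
    constructor
    · rintro ⟨x, hx, h⟩
      obtain ⟨i, -, rfl⟩ := mem_image.1 hx
      exact ⟨i, h⟩
    · rintro ⟨i, h⟩
      exact ⟨p i, mem_image_of_mem _ (mem_univ _), h⟩

end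

/-- the probability for given labels -/
theorem laR (hLA : S_LA) {ι : Type} [Fintype ι] (hι : Nonempty ι) (h sU : ℕ → F3) (sI : ι → F3)
    (S₀ : Finset ℕ) (hsU : ∀ u ∈ S₀, sU u ≠ 0) (hsI : ∀ i, sI i ≠ 0)
    (β : ι → ((S₀ → F3) × (S₀ → F3)) × F3) (hβ : LNr S₀ β) :
    |((univ.filter fun α : prs (univ : Finset ι) → F3 => GdRP h sU sI S₀ β α).card : ℝ) /
      3 ^ (prs (univ : Finset ι)).card - c3| ≤
      2 * (3 ^ (S₀.card + 1) / 3 ^ Fintype.card ι) := by
  obtain ⟨ks⟩ := hι
  have h1 := hLA (Option S₀) ι (univ.image (some : S₀ → Option S₀)) univ ks (by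
      rw [Fintype.card_option, card_image_of_injective _ (Option.some_injective _), card_univ,
        card_univ]
      omega)
    (fun l hl => absurd (Finset.mem_univ l) hl) (mA h sU S₀) (mB sI S₀ β) (mC sU S₀ β)
    (by
      rintro v ⟨u, hu, hv⟩
      rw [mem_image] at hu
      obtain ⟨u, -, rfl⟩ := hu
      have h3 := hβ.1 (fun u => v (some u)) (Function.ne_iff.2 ⟨u, hv⟩)
      obtain ⟨l, hl, hlk⟩ := Finset.exists_mem_ne (lt_of_lt_of_le one_lt_two h3) ks
      refine ⟨l, hlk, ?_⟩
      rw [mem_filter] at hl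
      rw [sum_image (fun a _ b _ hab => Option.some_injective _ hab)]
      have e : ∑ u : S₀, v (some u) * mB sI S₀ β (some u) l =
          sI l * ∑ u : S₀, v (some u) * (β l).1.2 u := by
        rw [mul_sum]
        refine sum_congr rfl fun u _ => ?_
        show v (some u) * (sI l * (β l).1.2 u) = _
        ring
      rw [e]
      exact mul_ne_zero (hsI l) hl.2)
    (by
      rintro w ⟨u, hu⟩
      obtain ⟨i, hi⟩ := hβ.2 (fun u => w (some u) * sU u) (w none) (by
        rintro ⟨h1, h2⟩
        cases u with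
        | none => exact hu h2
        | some u =>
          have := congrFun h1 u
          simp only [Pi.zero_apply] at this
          exact (mul_ne_zero hu (hsU u u.2)) this)
      refine ⟨i, mem_univ _, ?_⟩
      rw [Fintype.sum_option]
      have e : ∑ u : S₀, w (some u) * mC sU S₀ β i (some u) =
          ∑ u : S₀, w (some u) * sU u * (β i).1.1 u := by
        refine sum_congr rfl fun u _ => ?_
        show w (some u) * (sU u * (β i).1.1 u) = _
        ring
      rw [e, add_comm]
      exact hi)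
  have h2 : (univ.filter fun α : prs (univ : Finset ι) → F3 => GdRP h sU sI S₀ β α).card =
      (univ.filter fun α : prs (univ : Finset ι) → F3 =>
        GdA (univ.image (some : S₀ → Option S₀)) (univ : Finset ι) (mA h sU S₀) (mB sI S₀ β)
    (mC sU S₀ β) (Pool.Agent.Y703.CX.ext α)).card :=
    Ph_card hsI fun α => GdA (univ.image (some : S₀ → Option S₀)) (univ : Finset ι)
      (mA h sU S₀) (mB sI S₀ β) (mC sU S₀ β) (Pool.Agent.Y703.CX.ext α)
  rw [h2]
  rw [Fintype.card_option, Fintype.card_coe, card_univ] at h1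
  exact h1

/-- **The count in a box.** -/
theorem boxR (hEQ : S_EQ) (hLA : S_LA) (h : ℕ → F3) (sU : ℕ → F3) (ι : Type) [Fintype ι]
    (hι : Nonempty ι) (sI : ι → F3)
    (C : ι → Finset ℕ) (X : ι → ℕ) (κ : ℝ) (S₀ : Finset ℕ) (hκ : 0 ≤ κ)
    (hCX : ∀ i, (C i).card ≤ X i) (hHB : HB univ C X κ)
    (hsU : ∀ u ∈ S₀, sU u ≠ 0) (hsI : ∀ i, sI i ≠ 0)
    (hdis : ∀ i l, i ≠ l → Disjoint (C i) (C l)) :
    |(((Fintype.piFinset C).filter fun p => Nr h S₀ (univ.image p) ∧
        GdRP h sU sI S₀ (fun i => lx h S₀ (p i))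
          (fun e : prs (univ : Finset ι) => lam (p e.1.1) (p e.1.2))).card : ℝ) -
      c3 * (((Fintype.piFinset C).filter fun p => Nr h S₀ (univ.image p)).card : ℝ)| ≤
    (2 * (3 ^ (S₀.card + 1) / 3 ^ Fintype.card ι)) *
      (((Fintype.piFinset C).filter fun p => Nr h S₀ (univ.image p)).card : ℝ) +
    3 ^ ((2 * S₀.card + 1) * Fintype.card ι + (prs (univ : Finset ι)).card) *
      (κ * ∏ j, (X j : ℝ)) := by
  set cc : ℝ := 2 * (3 ^ (S₀.card + 1) / 3 ^ Fintype.card ι) with hcc
  set R : ℝ := 3 ^ (prs (univ : Finset ι)).card * (κ * ∏ j, (X j : ℝ)) with hR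
  have hcc0 : 0 ≤ cc := by positivity
  have hR0 : 0 ≤ R := mul_nonneg (by positivity)
    (mul_nonneg hκ (Finset.prod_nonneg fun j _ => by positivity))
  have hinj : ∀ p ∈ Fintype.piFinset C, Function.Injective p := by
    intro p hp i j hij
    rw [Fintype.mem_piFinset] at hp
    by_contra hne
    have h1 := Finset.disjoint_left.1 (hdis i j hne) (hp i)
    rw [hij] at h1
    exact h1 (hp j)
  -- the part with given labels
  have h1 : ∀ β : ι → ((S₀ → F3) × (S₀ → F3)) × F3, LNr S₀ β →
      |(((Fintype.piFinset C).filter fun p => (fun i => lx h S₀ (p i)) = β ∧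
          GdRP h sU sI S₀ (fun i => lx h S₀ (p i))
          (fun e : prs (univ : Finset ι) => lam (p e.1.1) (p e.1.2))).card : ℝ) -
        c3 * (((Fintype.piFinset C).filter fun p => (fun i => lx h S₀ (p i)) = β).card : ℝ)| ≤
      cc * (((Fintype.piFinset C).filter fun p => (fun i => lx h S₀ (p i)) = β).card : ℝ) + R := by
    intro β hβ
    set C' : ι → Finset ℕ := fun i => (C i).filter fun q => lx h S₀ q = β i with hC'
    have hpi : (Fintype.piFinset C).filter (fun p => (fun i => lx h S₀ (p i)) = β) =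
        Fintype.piFinset C' := by
      ext p
      simp only [Finset.mem_filter, Fintype.mem_piFinset, hC']
      constructor
      · rintro ⟨h2, h3⟩ i
        exact ⟨h2 i, congrFun h3 i⟩
      · intro h2
        exact ⟨fun i => (h2 i).1, funext fun i => (h2 i).2⟩
    have h2 := laR hLA hι h sU sI S₀ hsU hsI β hβ
    set Q : (prs (univ : Finset ι) → ZMod 3) → Prop := fun α => GdRP h sU sI S₀ β α with hQ
    have h3 := hEQ ι univ C' X κ hκ
      (fun i => (Finset.card_le_card (Finset.filter_subset _ _)).trans (hCX i))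
      (HB_sub hHB fun i q => lx h S₀ q = β i) Q
    have h4 : ((Fintype.piFinset C).filter fun p => (fun i => lx h S₀ (p i)) = β ∧
        GdRP h sU sI S₀ (fun i => lx h S₀ (p i))
          (fun e : prs (univ : Finset ι) => lam (p e.1.1) (p e.1.2))) =
        ((Fintype.piFinset C').filter fun p =>
          Q fun e => lam (p e.1.1) (p e.1.2)) := by
      rw [← hpi, Finset.filter_filter]
      refine Finset.filter_congr fun p hp => ?_
      refine and_congr_right fun hl => ?_
      subst hl
      exact Iff.rfl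
    have h5 : (((Fintype.piFinset C').card : ℕ) : ℝ) = ∏ j, ((C' j).card : ℝ) := by
      rw [Fintype.card_piFinset]
      push_cast
      rfl
    rw [h4, hpi, h5]
    set n : ℝ := (((Fintype.piFinset C').filter fun p =>
          Q fun e => lam (p e.1.1) (p e.1.2)).card : ℝ) with hn
    set q : ℝ := ((univ.filter Q).card : ℝ) / 3 ^ (prs (univ : Finset ι)).card with hq
    set P : ℝ := ∏ j, ((C' j).card : ℝ) with hP
    have hP0 : 0 ≤ P := Finset.prod_nonneg fun j _ => by positivity
    have h2' : |q - c3| ≤ cc := h2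
    have h6 : |n - c3 * P| ≤ |n - q * P| + |q - c3| * P := by
      have h7 : n - c3 * P = (n - q * P) + (q - c3) * P := by ring
      have h8 : |(q - c3) * P| = |q - c3| * P := by rw [abs_mul, abs_of_nonneg hP0]
      rw [h7, ← h8]
      exact abs_add_le _ _
    have h7 : |q - c3| * P ≤ cc * P := mul_le_mul_of_nonneg_right h2' hP0
    have h8 : |n - q * P| ≤ R := h3
    linarith
  -- sum over the labels
  set LL := univ.filter (fun β : ι → ((S₀ → F3) × (S₀ → F3)) × F3 => LNr S₀ β) with hLL
  have hfib : ∀ T : (ι → ℕ) → Prop,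
      (((Fintype.piFinset C).filter fun p => Nr h S₀ (univ.image p) ∧ T p).card : ℝ) =
      ∑ β ∈ LL, (((Fintype.piFinset C).filter fun p =>
        (fun i => lx h S₀ (p i)) = β ∧ T p).card : ℝ) := by
    intro T
    rw [Finset.card_eq_sum_card_fiberwise (f := fun (p : ι → ℕ) (i : ι) => lx h S₀ (p i))
      (t := LL) (by
        intro p hp
        rw [Finset.mem_coe, Finset.mem_filter] at hp
        rw [Finset.mem_coe, hLL, Finset.mem_filter]
        exact ⟨Finset.mem_univ _, (nr_iff (hinj p hp.1)).1 hp.2.1⟩)]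
    push_cast
    refine Finset.sum_congr rfl fun β hβ => ?_
    rw [hLL, Finset.mem_filter] at hβ
    congr 2
    ext p
    simp only [Finset.mem_filter]
    constructor
    · rintro ⟨⟨h3, h4, h4'⟩, h5⟩
      exact ⟨h3, h5, h4'⟩
    · rintro ⟨h3, h4, h5⟩
      refine ⟨⟨h3, ?_, h5⟩, h4⟩
      rw [nr_iff (hinj p h3), h4]
      exact hβ.2
  have hf1 := hfib fun p => GdRP h sU sI S₀ (fun i => lx h S₀ (p i))
          (fun e : prs (univ : Finset ι) => lam (p e.1.1) (p e.1.2))
  have hf2 := hfib fun _ => True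
  simp only [and_true] at hf2
  rw [hf1, hf2, Finset.mul_sum, ← Finset.sum_sub_distrib]
  refine (Finset.abs_sum_le_sum_abs _ _).trans ?_
  refine (Finset.sum_le_sum fun β hβ => h1 β (Finset.mem_filter.1 hβ).2).trans ?_
  rw [Finset.sum_add_distrib, ← Finset.mul_sum, Finset.sum_const, nsmul_eq_mul]
  have h5 : ((LL.card : ℕ) : ℝ) ≤ 3 ^ ((2 * S₀.card + 1) * Fintype.card ι) := by
    have h6 : LL.card ≤ Fintype.card (ι → ((S₀ → F3) × (S₀ → F3)) × F3) :=
      Finset.card_le_univ _
    rw [Fintype.card_fun, Fintype.card_prod, Fintype.card_prod, Fintype.card_fun, ZMod.card,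
      Fintype.card_coe, ← pow_add, ← two_mul, ← pow_succ, ← pow_mul] at h6
    exact_mod_cast h6
  have h6 := mul_le_mul_of_nonneg_right h5 hR0
  rw [pow_add, mul_assoc]
  linarith

end Run7.h238.R
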