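import Pool.Agent.Run7.h238.C.Bad
import Pool.Agent.Run7.h238.R.Box
import Pool.Agent.Run7.h238.R.Tw

/-!
# Weighted sums over the exceptional sets: degenerate labels
-/

set_option autoImplicit false
set_option linter.unusedVariables false

open scoped Classical

namespace Run7.h238.R

open Finset
open Filter
open scoped ComplexConjugate
open Pool.Agent.Y692.QS (Ei nr)
open Pool.Agent.Y715.T.RecG (Pq)
open Pool.Agent.Y699.E (ez PS nrm lg xab one_le_lg lg_mono lg_pos sum_le_inj ez_zero ez_add conj_ez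
  CH nrm_cast)
open Pool.Agent.Y703.CX
open Pool.Agent.Y37.CX (AA Pf Qf Sf mem_Sf dtP dtQ PQ_ne xab_val xt AA_congr AA_xt UU sum_UU mem_UU Pm
  Pm_nonneg Pm_mono Pm_le prod_pos_of prod_sub_le sub_range lg_pow_le prod_sq_le ev_pow pq_star)
open Pool.Agent.R413.SQ (Sml sml_of sml_add)
open Run7.h238.WFew (wt wt_nonneg wt_mono wt_union wt_card)
open Run7.h238.WSie (wsie)
open Run7.h238.C (SP mem_SP SP_sub_TT TT_prop sml_cs HDc ExC halG famC famC_sum famC_wt params Bd)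
open Run7.h238.X (F3 lx ex ex_u ex_p sg sg_ne)

/-- the character attached to a vector -/
noncomputable def chR (U : Finset ℕ) (b : Bool) (v : ℕ → ZMod 3) (c : ZMod 3) : Ei → ℂ :=
  xg (AA (Sf b U) (Pf b v)) (AA (Sf b U) (Qf b v)) 0 c

/-- the vector is not trivial -/
def ntR (U : Finset ℕ) (b : Bool) (v : ℕ → ZMod 3) (c : ZMod 3) : Prop :=
  (∃ u ∈ Sf b U, v u ≠ 0) ∨ c ≠ 0

lemma Tg_pp (hL : LamP) {p : ℕ} (hp : p.Prime) (h1 : p % 3 = 1) (c : ZMod 3) :
    Tg 0 c (pp p) = ez (c * hn p) ∧ Tg 0 c (star (pp p)) = ez (c * hn p) := by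
  have hq := (hL.ex p hp h1).1
  have hs := pq_star hq
  have hn1 : nrm (pp p) = p := by
    have h2 := (hL.ex p hp h1).2
    have h3 := nrm_cast (pp p)
    rw [h2] at h3
    exact_mod_cast h3
  have hn2 : nrm (star (pp p)) = p := by
    have h2 : (nrm (star (pp p)) : ℤ) = nrm (pp p) := by
      rw [nrm_cast, nrm_cast]
      unfold nr
      rw [Pool.Agent.Y692.QS.star_re, Pool.Agent.Y692.QS.star_im]
      ring
    rw [hn1] at h2
    exact_mod_cast h2
  rw [Tg_prm (show Pool.Agent.Y699.E.prm (pp p) from hq.three),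
    Tg_prm (show Pool.Agent.Y699.E.prm (star (pp p)) from hs.three)]
  unfold tg
  rw [hn1, hn2, zero_mul, zero_mul, zero_add]
  exact ⟨rfl, rfl⟩

lemma chR_val (hL : LamP) {U : Finset ℕ} (hU : ∀ u ∈ U, u.Prime ∧ u ≠ 3) (b : Bool)
    (v : ℕ → ZMod 3) (c : ZMod 3) {p : ℕ} (hp : p.Prime) (hp1 : p % 3 = 1) (hpU : p ∉ U) :
    chR U b v c (pp p) = ez ((∑ u ∈ Sf b U, v u * (if b then lam u p else lam p u)) + c * hn p) ∧
    chR U b v c (star (pp p)) =
      ez ((∑ u ∈ Sf b U, v u * (if b then lam u p else -lam p u)) + c * hn p) := by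
  obtain ⟨h1, h2⟩ := xab_val hL hU b v hp hp1 hpU
  obtain ⟨h4, h5⟩ := Tg_pp hL hp hp1 c
  unfold chR xg
  rw [h1, h2, h4, h5, ← ez_add, ← ez_add]
  exact ⟨rfl, rfl⟩

/-- the extension by zero -/
noncomputable def e0 (U : Finset ℕ) (v : U → ZMod 3) (n : ℕ) : ZMod 3 :=
  if h : n ∈ U then v ⟨n, h⟩ else 0

theorem e0_val {U : Finset ℕ} (v : U → ZMod 3) (u : U) : e0 U v u = v u := by
  unfold e0
  rw [dif_pos u.2]

theorem e0_sum {U : Finset ℕ} (v : U → ZMod 3) (f : ℕ → ZMod 3) :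
    ∑ u ∈ U, e0 U v u * f u = ∑ u : U, v u * f u := by
  rw [← Finset.sum_coe_sort U]
  refine sum_congr rfl fun u _ => ?_
  rw [e0_val]

theorem sf_all {U : Finset ℕ} (hU : ∀ u ∈ U, u % 3 = 1) (b : Bool) : Sf b U = U := by
  unfold Sf
  cases b with
  | false => simp
  | true =>
    rw [if_pos rfl, filter_eq_self]
    exact hU

/-- degenerate labels -/
lemma notNr (hL : LamP) {U L : Finset ℕ} (hU : ∀ u ∈ U, u.Prime ∧ u % 3 = 1)
    (hT : ∀ p ∈ L, p.Prime ∧ p % 3 = 1) (hd : Disjoint U L) (h : ¬ Nr hn U L) :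
    ∃ t : Bool × (U → ZMod 3) × ZMod 3, ntR U t.1 (e0 U t.2.1) t.2.2 ∧
      (L.filter fun p => ExC (chR U t.1 (e0 U t.2.1) t.2.2) p).card ≤ 1 := by
  have hU3 : ∀ u ∈ U, u.Prime ∧ u ≠ 3 := fun u hu => ⟨(hU u hu).1, fun h => by
    have := (hU u hu).2
    rw [h] at this
    omega⟩
  have hSf := sf_all (fun u hu => (hU u hu).2)
  unfold Nr at h
  rw [not_and_or] at h
  rcases h with h | h
  · push Not at h
    obtain ⟨v, hv, h2⟩ := h
    obtain ⟨u, hu⟩ := Function.ne_iff.1 hv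
    refine ⟨(false, v, 0), Or.inl ⟨u, ?_, ?_⟩, ?_⟩
    · simp only
      rw [hSf]
      exact u.2
    · simp only
      rw [e0_val]
      exact hu
    · refine (card_le_card ?_).trans (Nat.lt_succ_iff.1 h2)
      intro p hp
      rw [mem_filter] at hp ⊢
      refine ⟨hp.1, fun h0 => hp.2 ?_⟩
      have hp1 := hT p hp.1
      have hpS : p ∉ U := fun h' => disjoint_left.1 hd h' hp.1
      obtain ⟨e1, e2⟩ := chR_val hL hU3 false (e0 U v) 0 hp1.1 hp1.2 hpS
      simp only [Bool.false_eq_true, if_false, zero_mul, add_zero] at e1 e2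
      rw [hSf, e0_sum v (fun u => lam p u), h0, ez_zero] at e1
      rw [hSf, e0_sum v (fun u => -lam p u)] at e2
      have h5 : ∑ u : U, v u * -lam p u = -∑ u : U, v u * lam p u := by
        simp only [mul_neg, sum_neg_distrib]
      rw [h5, h0, neg_zero, ez_zero] at e2
      exact ⟨e1, e2⟩
  · push Not at h
    obtain ⟨v, c, hvc, h2⟩ := h
    refine ⟨(true, v, c), ?_, ?_⟩
    · by_cases hc : c = 0
      · left
        have hv : v ≠ 0 := fun h => hvc h hc
        obtain ⟨u, hu⟩ := Function.ne_iff.1 hv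
        refine ⟨u, ?_, ?_⟩
        · simp only
          rw [hSf]
          exact u.2
        · simp only
          rw [e0_val]
          exact hu
      · exact Or.inr hc
    · have : (L.filter fun p => ExC (chR U true (e0 U v) c) p) = ∅ := by
        rw [filter_eq_empty_iff]
        intro p hp hE
        apply hE
        have hp1 := hT p hp
        have hpS : p ∉ U := fun h' => disjoint_left.1 hd h' hp
        obtain ⟨e1, e2⟩ := chR_val hL hU3 true (e0 U v) c hp1.1 hp1.2 hpS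
        simp only [if_true] at e1 e2
        rw [hSf, e0_sum v (fun u => lam u p), h2 p hp, ez_zero] at e1 e2
        exact ⟨e1, e2⟩
      show (L.filter fun p => ExC (chR U true (e0 U v) c) p).card ≤ 1
      rw [this]
      simp

/-- the character is admissible -/
lemma chR_ok (hL : LamP) {U : Finset ℕ} (hU : ∀ u ∈ U, u.Prime ∧ u ≠ 3) (b : Bool)
    (v : ℕ → ZMod 3) (c : ZMod 3) (hn : ntR U b v c) : CH (chR U b v c) ∧ Bd (chR U b v c)
      (9 * (nrm (AA (Sf b U) (Pf b v)) * nrm (AA (Sf b U) (Qf b v)))) := by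
  have hdP := dtP hL hU b v
  have hdQ := dtQ hL hU b v
  refine ⟨xg_ch hdP.ps hdQ.ps _ _, xg_bd hdP.ps hdQ.ps ?_⟩
  rcases hn with ⟨u, hu, h⟩ | h
  · left
    exact hdP.ne hdQ hu (PQ_ne hL hU b v hu h)
  · exact Or.inr (Or.inr h)

/-- the sets with degenerate labels and given small part -/
theorem fiberR (hL : LamP) (X z : ℕ) {S₀ : Finset ℕ} (hS₀ : ∀ u ∈ S₀, u.Prime ∧ u % 3 = 1) :
    wt ((SP X).filter fun S => ¬ Nr hn (sm z S) (la z S) ∧ sm z S = S₀) ≤
      2 ^ S₀.card * ∑ t : Bool × (S₀ → ZMod 3) × ZMod 3,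
        if ntR S₀ t.1 (e0 S₀ t.2.1) t.2.2 then
          wt (famC (chR S₀ t.1 (e0 S₀ t.2.1) t.2.2) (X / ∏ p ∈ S₀, p)) else 0 := by
  set F := (SP X).filter fun S => ¬ Nr hn (sm z S) (la z S) ∧ sm z S = S₀ with hF
  set PW := (univ : Finset (Bool × (S₀ → ZMod 3) × ZMod 3)).filter
    fun t => ntR S₀ t.1 (e0 S₀ t.2.1) t.2.2 with hPW
  have key : ∀ S : Finset ℕ, sm z S ∪ la z S = S := fun S => filter_union_filter_not_eq _ _
  have hcard : ∀ S ∈ F, (2 : ℝ) ^ S.card = 2 ^ S₀.card * 2 ^ (la z S).card := by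
    intro S hS
    rw [← pow_add]
    congr 1
    have h1 : (sm z S).card + (la z S).card = S.card := Finset.card_filter_add_card_filter_not _
    rw [hF, mem_filter] at hS
    rw [hS.2.2] at h1
    exact h1.symm
  have hmem : ∀ S ∈ F, la z S ∈ PW.biUnion fun t => famC (chR S₀ t.1 (e0 S₀ t.2.1) t.2.2)
      (X / ∏ p ∈ S₀, p) := by
    intro S hS
    rw [hF, mem_filter, mem_SP] at hS
    obtain ⟨⟨h1, h2⟩, h5, h6⟩ := hS
    have hla : ∀ p ∈ la z S, p.Prime ∧ p % 3 = 1 := fun p hp => h1 p (mem_filter.1 hp).1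
    rw [h6] at h5
    have hd : Disjoint S₀ (la z S) := by
      rw [disjoint_left]
      intro p hp hp'
      have h7 := (mem_filter.1 hp').2
      rw [← h6] at hp
      exact h7 (mem_filter.1 hp).2
    obtain ⟨t, hn, hc⟩ := notNr hL hS₀ hla hd h5
    rw [mem_biUnion]
    refine ⟨t, ?_, ?_⟩
    · rw [hPW, mem_filter]
      exact ⟨mem_univ _, hn⟩
    · rw [famC, mem_filter, mem_powerset]
      have hN : 0 < ∏ p ∈ S₀, p := prod_pos_of fun p hp => (hS₀ p hp).1
      have hprod : ∏ p ∈ la z S, p ≤ X / ∏ p ∈ S₀, p := by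
        rw [Nat.le_div_iff_mul_le hN, mul_comm, ← h6]
        have : (∏ p ∈ sm z S, p) * ∏ p ∈ la z S, p = ∏ p ∈ S, p :=
          prod_filter_mul_prod_filter_not _ _ _
        rw [this]
        exact h2
      exact ⟨sub_range (fun p hp => (hla p hp).1) hprod, hla, hc, hprod⟩
  have hinj : ∀ S ∈ F, ∀ S' ∈ F, la z S = la z S' → S = S' := by
    intro S hS S' hS' h
    rw [hF, mem_filter] at hS hS'
    rw [← key S, ← key S', hS.2.2, hS'.2.2, h]
  have h1 : wt F = 2 ^ S₀.card * ∑ S ∈ F, (2 : ℝ) ^ (la z S).card := by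
    unfold wt
    rw [sum_congr rfl hcard, ← mul_sum]
  rw [h1, ← sum_filter, ← hPW]
  refine mul_le_mul_of_nonneg_left ?_ (by positivity)
  have h2 : ∑ S ∈ F, (2 : ℝ) ^ (la z S).card = ∑ T ∈ F.image (la z), (2 : ℝ) ^ T.card := by
    rw [sum_image]
    intro S hS T hT h
    exact hinj S hS T hT h
  rw [h2]
  have h4 : F.image (la z) ⊆ PW.biUnion fun t => famC (chR S₀ t.1 (e0 S₀ t.2.1) t.2.2)
      (X / ∏ p ∈ S₀, p) := by
    intro T hT
    rw [mem_image] at hT
    obtain ⟨S, hS, rfl⟩ := hT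
    exact hmem S hS
  refine (sum_le_sum_of_subset_of_nonneg h4 fun _ _ _ => by positivity).trans ?_
  have h5 : ∀ (A : Finset (Bool × (S₀ → ZMod 3) × ZMod 3))
      (g : Bool × (S₀ → ZMod 3) × ZMod 3 → Finset (Finset ℕ)),
      ∑ T ∈ A.biUnion g, (2 : ℝ) ^ T.card ≤ ∑ W ∈ A, wt (g W) := by
    intro A g
    induction A using Finset.induction_on with
    | empty => simp
    | insert a s ha ih =>
      rw [biUnion_insert, sum_insert ha]
      exact (wt_union _ _).trans (add_le_add le_rfl ih)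
  exact h5 _ _

/-- **the weight of the sets with degenerate labels** -/
theorem bad (hSIE : S_SIE) (hL : LamP) :
    Sml 0 fun X => wt ((SP X).filter fun S => S.card ≤ kk X ∧
      ¬ Nr hn (sm (zz X) S) (la (zz X) S)) := by
  obtain ⟨C₁, h11, h1⟩ := wsie hSIE
  obtain ⟨C₃, h30, h3⟩ := Pm_le
  have hC1 : 0 ≤ C₁ := by linarith
  set D0 : ℝ := 6 * (3 * C₁ * (864 * 200) ^ 2) * Real.exp (6 * C₃) with hD0
  have hD00 : 0 ≤ D0 := by
    rw [hD0]
    positivity
  refine sml_of (C := D0) (a := 1 / 4) (by norm_num) ?_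
  filter_upwards [params C₃ 0] with X hX
  obtain ⟨hX3, hl2, hlog1, h33, htk, hfin⟩ := hX
  have hl0 : 0 < eL X := by linarith
  have hlXe := logX_eq hl0
  set ℓ : ℝ := eL X with hℓ
  set z : ℕ := zz X with hz
  set k : ℕ := kk X with hk
  have hlX : 0 < Real.log X := by linarith
  have hk11 : (k : ℝ) ≤ 11 * ℓ := kk_le (by linarith)
  have hl3 : (8 : ℝ) ≤ ℓ ^ 3 := by
    have := pow_le_pow_left₀ (by norm_num : (0 : ℝ) ≤ 2) hl2 3
    linarith
  have hz3 : 3 ≤ z := by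
    rw [hz]
    unfold zz
    apply Nat.le_floor
    have h := Real.add_one_le_exp ((eL X) ^ 3)
    rw [← hℓ] at h ⊢
    push_cast
    linarith
  have hz1 : 1 ≤ z := by omega
  have hz0 : (0 : ℝ) < z := by exact_mod_cast hz1
  have hzlog : Real.log z ≤ ℓ ^ 3 := by
    rw [Real.log_le_iff_le_exp hz0]
    exact Nat.floor_le (Real.exp_pos _).le
  have hzlog0 : 0 < Real.log z := Real.log_pos (by exact_mod_cast (by omega : 1 < z))
  have hl4 : (16 : ℝ) ≤ ℓ ^ 4 := by
    have := pow_le_pow_left₀ (by norm_num : (0 : ℝ) ≤ 2) hl2 4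
    linarith
  have hX0 : (0 : ℝ) < X := by exact_mod_cast (by omega : 0 < X)
  -- the size of the families
  set R : ℝ := 3 * C₁ * ((1 + (ℓ + C₃)) * (864 * (200 * ℓ ^ 4) * (Real.log X) ^ (1 / 3 : ℝ))) ^ 2 /
    Real.log X with hR
  have hrp0 : 0 < (Real.log X) ^ (1 / 3 : ℝ) := Real.rpow_pos_of_pos hlX _
  have hR0 : 0 ≤ R := by
    rw [hR]
    positivity
  have key : ∀ S₀ : Finset ℕ, (∀ u ∈ S₀, u.Prime ∧ u % 3 = 1) → (∀ u ∈ S₀, u ≤ z) →
      S₀.card ≤ k → ∀ (b : Bool) (v : ℕ → ZMod 3) (c : ZMod 3), ntR S₀ b v c →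
      wt (famC (chR S₀ b v c) (X / ∏ p ∈ S₀, p)) ≤ (X : ℝ) / ((∏ p ∈ S₀, p : ℕ) : ℝ) * R := by
    intro S₀ hS₀' hSz hSk b v c hn
    have hS₀ : ∀ u ∈ S₀, u.Prime := fun u hu => (hS₀' u hu).1
    set U := S₀ with hU
    have hUp : ∀ u ∈ U, u.Prime ∧ u ≠ 3 := fun u hu => ⟨hS₀ u hu, fun h => by
      have := (hS₀' u hu).2
      rw [h] at this
      omega⟩
    have hUz : ∀ u ∈ U, u ≤ z := hSz
    have hUc : U.card ≤ 2 * k := by omega
    obtain ⟨hch, hbd⟩ := chR_ok hL hUp b v c hn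
    have hdP := dtP hL hUp b v
    have hdQ := dtQ hL hUp b v
    set NN' : ℕ := 9 * (nrm (AA (Sf b U) (Pf b v)) * nrm (AA (Sf b U) (Qf b v))) with hNN'
    have hN1 : 1 ≤ NN' := by
      have a1 := Pool.Agent.Y699.E.nrm_pos' hdP.ps.ne
      have a2 := Pool.Agent.Y699.E.nrm_pos' hdQ.ps.ne
      have := Nat.mul_pos a1 a2
      omega
    set N : ℕ := ∏ p ∈ S₀, p with hN
    have hN0 : 0 < N := prod_pos_of fun p hp => hS₀ p hp
    have hN0' : (0 : ℝ) < N := by exact_mod_cast hN0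
    have hlN : Real.log N ≤ 11 * ℓ ^ 4 := by
      have e1 : Real.log N = ∑ p ∈ S₀, Real.log p := by
        rw [hN]
        push_cast
        rw [Real.log_prod]
        intro p hp
        have := (hS₀ p hp).ne_zero
        exact_mod_cast this
      rw [e1]
      calc ∑ p ∈ S₀, Real.log p ≤ ∑ _p ∈ S₀, Real.log z := by
            refine sum_le_sum fun p hp => ?_
            exact Real.log_le_log (by exact_mod_cast (hS₀ p hp).pos) (by exact_mod_cast hSz p hp)
        _ = S₀.card * Real.log z := by rw [sum_const, nsmul_eq_mul]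
        _ ≤ (11 * ℓ) * ℓ ^ 3 := by
            refine mul_le_mul (le_trans (by exact_mod_cast hSk) hk11) hzlog hzlog0.le (by positivity)
        _ = 11 * ℓ ^ 4 := by ring
    set Y : ℕ := X / N with hY
    have hYle : (Y : ℝ) ≤ (X : ℝ) / N := Nat.cast_div_le
    have hYge : Real.exp (Real.log X / 3) ≤ Y := by
      have e1 : (X : ℝ) / N < Y + 1 := by
        rw [div_lt_iff₀ hN0']
        have := Nat.lt_mul_div_succ X hN0
        rw [← hY] at this
        have h' : ((X : ℕ) : ℝ) < ((N * (Y + 1) : ℕ) : ℝ) := by exact_mod_cast this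
        push_cast at h'
        linarith
      have e2 : Real.exp (Real.log X - Real.log N) = (X : ℝ) / N := by
        rw [Real.exp_sub, Real.exp_log hX0, Real.exp_log hN0']
      have e3 : Real.exp (Real.log X / 3 + 1) ≤ (X : ℝ) / N := by
        rw [← e2]
        apply Real.exp_le_exp.2
        linarith
      rw [Real.exp_add] at e3
      have e4 : (2 : ℝ) ≤ Real.exp 1 := by have := Real.exp_one_gt_d9; linarith
      have e5 : (1 : ℝ) ≤ Real.exp (Real.log X / 3) := Real.one_le_exp (by positivity)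
      nlinarith
    have hY2 : 2 ≤ Y := by
      have e1 := Real.add_one_le_exp (Real.log X / 3)
      have e2 : (2 : ℝ) ≤ Y := by linarith
      exact_mod_cast e2
    have hY0 : (0 : ℝ) < Y := by exact_mod_cast (by omega : 0 < Y)
    have hlY : Real.log X / 3 ≤ Real.log Y := by
      rw [Real.le_log_iff_exp_le hY0]
      exact hYge
    have hYX : Y ≤ X := Nat.div_le_self _ _
    have hlYX : Real.log Y ≤ Real.log X := Real.log_le_log hY0 (by exact_mod_cast hYX)
    have hlY0 : 0 < Real.log Y := by linarith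
    have hPm : Pm Y ≤ ℓ + C₃ := (Pm_mono hYX).trans (h3 X hX3)
    -- the conductors
    have hlg : lg NN' ≤ 200 * ℓ ^ 4 := by
      have hSf : ∀ u ∈ Sf b U, u ≤ z := fun u hu => hUz u (mem_Sf hu)
      have hSc : (Sf b U).card ≤ 2 * k :=
        (card_le_card fun u hu => mem_Sf hu).trans hUc
      have e1 := (hdP.nrm_le).trans (prod_sq_le hz1 hSf hSc)
      have e2 := (hdQ.nrm_le).trans (prod_sq_le hz1 hSf hSc)
      have e3 : NN' ≤ z ^ (4 * (2 * k + 1)) := by
        have e9 : 9 ≤ z ^ 4 := by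
          calc 9 = 3 ^ 2 := by norm_num
            _ ≤ z ^ 2 := Nat.pow_le_pow_left hz3 2
            _ ≤ z ^ 4 := Nat.pow_le_pow_right hz1 (by norm_num)
        rw [hNN']
        refine (Nat.mul_le_mul e9 (Nat.mul_le_mul e1 e2)).trans (le_of_eq ?_)
        rw [← pow_add, ← pow_add]
        congr 1
        ring
      refine (lg_mono e3).trans ((lg_pow_le hz1).trans ?_)
      have hl2' := Real.log_two_gt_d9
      have e4 : 4 * ((2 * k + 1 : ℕ) : ℝ) * Real.log z ≤ 90 * ℓ ^ 4 := by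
        have e5 : ((2 * k + 1 : ℕ) : ℝ) ≤ 22 * ℓ + 1 := by
          push_cast
          linarith
        have e6 : ((2 * k + 1 : ℕ) : ℝ) * Real.log z ≤ (22 * ℓ + 1) * ℓ ^ 3 :=
          mul_le_mul e5 hzlog hzlog0.le (by positivity)
        have e7 : (1 : ℝ) * ℓ ^ 3 ≤ 1 / 2 * ℓ ^ 4 := by
          have : ℓ ^ 4 = ℓ * ℓ ^ 3 := by ring
          rw [this]
          nlinarith
        have e8 : (22 * ℓ + 1) * ℓ ^ 3 = 22 * ℓ ^ 4 + 1 * ℓ ^ 3 := by ring
        linarith
      have e5 : 4 * ((2 * k + 1 : ℕ) : ℝ) * Real.log z / Real.log 2 ≤ 150 * ℓ ^ 4 := by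
        rw [div_le_iff₀ (by linarith)]
        nlinarith
      linarith
    have hlg1 := one_le_lg NN'
    have hlg6 : (lg NN') ^ (1 / 6 : ℝ) ≤ 200 * ℓ ^ 4 := by
      refine le_trans ?_ hlg
      have := Real.rpow_le_rpow_of_exponent_le hlg1 (show (1 / 6 : ℝ) ≤ 1 by norm_num)
      rwa [Real.rpow_one] at this
    have hmain := famC_wt h11 h1 hL hch hN1 hbd hY2
    have hrY : (Real.log Y) ^ (1 / 3 : ℝ) ≤ (Real.log X) ^ (1 / 3 : ℝ) :=
      Real.rpow_le_rpow hlY0.le hlYX (by norm_num)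
    have hPm0 := Pm_nonneg Y
    have hlg60 : 0 ≤ (lg NN') ^ (1 / 6 : ℝ) := Real.rpow_nonneg (by linarith) _
    have hrY0 : 0 ≤ (Real.log Y) ^ (1 / 3 : ℝ) := Real.rpow_nonneg hlY0.le _
    have hb : C₁ * Y * ((1 + Pm Y) *
      (864 * (lg NN') ^ (1 / 6 : ℝ) * (Real.log Y) ^ (1 / 3 : ℝ))) ^ 2 ≤
      C₁ * ((X : ℝ) / N) * ((1 + (ℓ + C₃)) *
      (864 * (200 * ℓ ^ 4) * (Real.log X) ^ (1 / 3 : ℝ))) ^ 2 := by
      gcongr
    have hc : wt (famC (chR U b v c) Y) * (Real.log X / 3) ≤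
        C₁ * ((X : ℝ) / N) * ((1 + (ℓ + C₃)) *
      (864 * (200 * ℓ ^ 4) * (Real.log X) ^ (1 / 3 : ℝ))) ^ 2 := by
      refine le_trans ?_ (hmain.trans hb)
      exact mul_le_mul_of_nonneg_left hlY (wt_nonneg _)
    have hd : (X : ℝ) / N * R = (C₁ * ((X : ℝ) / N) * ((1 + (ℓ + C₃)) *
      (864 * (200 * ℓ ^ 4) * (Real.log X) ^ (1 / 3 : ℝ))) ^ 2) / (Real.log X / 3) := by
      rw [hR]
      field_simp
    rw [hd, le_div_iff₀ (by positivity)]
    exact hc
  -- the sum over the small parts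
  set B := (SP X).filter fun S => S.card ≤ k ∧ ¬ Nr hn (sm z S) (la z S) with hB
  set D := (range (z + 1)).filter fun p => p.Prime ∧ p % 3 = 1 with hD
  set W := D.powerset.filter fun S => S.card ≤ k with hW
  have hmaps : ∀ S ∈ B, sm z S ∈ W := by
    intro S hS
    rw [hB, mem_filter, mem_SP] at hS
    obtain ⟨⟨k1, k2⟩, k4, k5⟩ := hS
    rw [hW, mem_filter, mem_powerset]
    refine ⟨fun p hp => ?_, (card_le_card (filter_subset _ _)).trans k4⟩
    obtain ⟨l1, l2⟩ := mem_filter.1 hp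
    rw [hD, mem_filter, mem_range]
    exact ⟨by omega, k1 p l1⟩
  have hcard : wt B ≤ ∑ S₀ ∈ W, 6 * 6 ^ S₀.card *
      ((X : ℝ) / ((∏ p ∈ S₀, p : ℕ) : ℝ) * R) := by
    unfold wt
    rw [← sum_fiberwise_of_maps_to hmaps]
    refine sum_le_sum fun S₀ hS₀ => ?_
    rw [hW, mem_filter, mem_powerset] at hS₀
    have hpr : ∀ u ∈ S₀, u.Prime ∧ u % 3 = 1 := fun u hu => (mem_filter.1 (hS₀.1 hu)).2
    have hle : ∀ u ∈ S₀, u ≤ z := fun u hu => by
      have := mem_range.1 (mem_filter.1 (hS₀.1 hu)).1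
      omega
    have e1 : wt (B.filter fun S => sm z S = S₀) ≤
        wt ((SP X).filter fun S => ¬ Nr hn (sm z S) (la z S) ∧ sm z S = S₀) := by
      refine wt_mono fun S hS => ?_
      rw [mem_filter, hB, mem_filter] at hS
      rw [mem_filter]
      exact ⟨hS.1.1, hS.1.2.2, hS.2⟩
    have e2 := e1.trans (fiberR hL X z hpr)
    have hnn : 0 ≤ (X : ℝ) / ((∏ p ∈ S₀, p : ℕ) : ℝ) * R := by positivity
    have e3 : (∑ t : Bool × (S₀ → ZMod 3) × ZMod 3,
        if ntR S₀ t.1 (e0 S₀ t.2.1) t.2.2 then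
          wt (famC (chR S₀ t.1 (e0 S₀ t.2.1) t.2.2) (X / ∏ p ∈ S₀, p)) else 0) ≤
        ∑ t : Bool × (S₀ → ZMod 3) × ZMod 3, (X : ℝ) / ((∏ p ∈ S₀, p : ℕ) : ℝ) * R := by
      refine sum_le_sum fun t _ => ?_
      split_ifs with ht
      · exact key S₀ hpr hle hS₀.2 t.1 _ _ ht
      · exact hnn
    refine (e2.trans (mul_le_mul_of_nonneg_left e3 (by positivity))).trans ?_
    rw [sum_const, card_univ, Fintype.card_prod, Fintype.card_prod, Fintype.card_bool,
      Fintype.card_fun, ZMod.card, Fintype.card_coe, nsmul_eq_mul, ← mul_assoc]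
    refine mul_le_mul_of_nonneg_right ?_ hnn
    have h6 : (6 : ℝ) ^ S₀.card = 2 ^ S₀.card * 3 ^ S₀.card := by
      rw [← mul_pow]
      norm_num
    rw [h6]
    push_cast
    exact le_of_eq (by ring)
  have hsum : ∑ S₀ ∈ W, 6 * 6 ^ S₀.card * ((X : ℝ) / ((∏ p ∈ S₀, p : ℕ) : ℝ) * R) ≤
      6 * (X * R) * Real.exp (6 * Pm z) := by
    have e1 : ∀ S₀ ∈ W, 6 * 6 ^ S₀.card * ((X : ℝ) / ((∏ p ∈ S₀, p : ℕ) : ℝ) * R) =
        6 * (X * R) * ∏ p ∈ S₀, (6 / (p : ℝ)) := by
      intro S₀ _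
      rw [prod_div_distrib, prod_const]
      push_cast
      ring
    rw [sum_congr rfl e1, ← mul_sum]
    have h2XR : 0 ≤ 6 * ((X : ℝ) * R) := by positivity
    refine mul_le_mul_of_nonneg_left ?_ h2XR
    calc ∑ S₀ ∈ W, ∏ p ∈ S₀, (6 / (p : ℝ)) ≤ ∑ S₀ ∈ D.powerset, ∏ p ∈ S₀, (6 / (p : ℝ)) := by
          refine sum_le_sum_of_subset_of_nonneg (filter_subset _ _) fun S _ _ => ?_
          exact prod_nonneg fun _ _ => by positivity
      _ = ∏ p ∈ D, (1 + 6 / (p : ℝ)) := by rw [prod_one_add]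
      _ ≤ ∏ p ∈ D, Real.exp (6 / (p : ℝ)) := by
          refine prod_le_prod (fun _ _ => by positivity) fun p _ => ?_
          rw [add_comm]
          exact Real.add_one_le_exp _
      _ = Real.exp (∑ p ∈ D, 6 / (p : ℝ)) := by rw [Real.exp_sum]
      _ ≤ Real.exp (6 * Pm z) := by
          apply Real.exp_le_exp.2
          unfold Pm
          rw [mul_sum]
          have e2 : ∀ p : ℕ, 6 / (p : ℝ) = 6 * (1 / p) := fun p => by ring
          simp_rw [e2]
          refine sum_le_sum_of_subset_of_nonneg ?_ fun _ _ _ => by positivity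
          intro p hp
          rw [hD, mem_filter, mem_range] at hp
          rw [mem_filter, mem_Icc]
          exact ⟨⟨hp.2.1.pos, by omega⟩, hp.2.1⟩
  have hexp : Real.exp (6 * Pm z) ≤ Real.exp (6 * C₃) * ℓ ^ 18 := by
    have e1 := h3 z hz3
    have e2 : Real.exp (6 * Pm z) ≤ Real.exp (6 * (Real.log (Real.log z) + C₃)) :=
      Real.exp_le_exp.2 (by linarith)
    refine e2.trans ?_
    have e3 : Real.exp (6 * (Real.log (Real.log z) + C₃)) = Real.exp (6 * C₃) * (Real.log z) ^ 6 := by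
      rw [mul_add, Real.exp_add, mul_comm]
      congr 1
      rw [show (6 : ℝ) * Real.log (Real.log z) = Real.log ((Real.log z) ^ 6) by
        rw [Real.log_pow]; push_cast; ring]
      exact Real.exp_log (by positivity)
    rw [e3]
    refine mul_le_mul_of_nonneg_left ?_ (Real.exp_pos _).le
    calc (Real.log z) ^ 6 ≤ (ℓ ^ 3) ^ 6 := pow_le_pow_left₀ hzlog0.le hzlog 6
      _ = ℓ ^ 18 := by ring
  have hXR : 0 ≤ 6 * ((X : ℝ) * R) := by positivity
  calc wt B ≤ 6 * (X * R) * Real.exp (6 * Pm z) := hcard.trans hsum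
    _ ≤ 6 * (X * R) * (Real.exp (6 * C₃) * ℓ ^ 18) :=
        mul_le_mul_of_nonneg_left hexp hXR
    _ = D0 * X * ((ℓ ^ 26 * (1 + (ℓ + C₃)) ^ 2) *
          ((Real.log X) ^ (1 / 3 : ℝ)) ^ 2 / Real.log X) := by
        rw [hR, hD0]
        ring
    _ ≤ D0 * X * ((Real.log X) ^ (1 / 12 : ℝ) *
          ((Real.log X) ^ (1 / 3 : ℝ)) ^ 2 / Real.log X) := by
        gcongr
    _ = D0 * (X * Real.exp (-(1 / 4) * ℓ)) := by
        rw [hlXe, ← Real.exp_mul, ← Real.exp_mul, ← Real.exp_nat_mul, ← Real.exp_add,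
          ← Real.exp_sub, mul_assoc]
        congr 3
        push_cast
        ring

end Run7.h238.R
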