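import Pool.Agent.Run7.h238.C.EDisc
import Pool.Agent.Run7.h238.C.Law
import Pool.Agent.Run7.h238.R.Bad
import Pool.Agent.Run7.h238.R.Key

/-!
# The weighted law for the square system
-/

set_option autoImplicit false
set_option linter.unusedVariables false

open scoped Classical

namespace Run7.h238.R

open Finset
open Filter
open Pool.Agent.Y703.CX
open Pool.Agent.R413.SQ (Sml sml_of sml_add)
open Run7.h238.WFew (wt wt_nonneg wt_mono wt_union wt_card)
open Run7.h238.WTail (H2 H2_pos N2 sml_mono)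
open Run7.h238.WFin (zz_tendsto)
open Run7.h238.C (SP mem_SP SP_sub_TT RW c3_pos c3_lt sml_few sml_main sml_many sml_cut sml_coll)

/-- the sets outside the regular part -/
theorem out_subR (X z H K V : ℕ) :
    SP X \ ((RW ∅ X z H K V).filter fun S => Nr hn (sm z S) (la z S)) ⊆
      ((((Pool.Agent.Y911.CX.TT X).filter fun S => K < S.card) ∪
      ((Pool.Agent.Y911.CX.TT X).filter fun S => S.card ≤ K ∧
        X < (∏ p ∈ sm z S, p) * ∏ p ∈ la z S, XX H (jj H p))) ∪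
      ((Pool.Agent.Y911.CX.TT X).filter fun S => ¬ Set.InjOn (jj H) (la z S : Set ℕ))) ∪
      (((SP X).filter fun S => (la z S).card ≤ (sm z S).card + V) ∪
      ((SP X).filter fun S => S.card ≤ K ∧ ¬ Nr hn (sm z S) (la z S))) := by
  intro S hS
  rw [Finset.mem_sdiff, Finset.mem_filter] at hS
  obtain ⟨h1, h2⟩ := hS
  have h0 := SP_sub_TT X h1
  simp only [mem_union, mem_filter]
  by_contra hc
  push Not at hc
  obtain ⟨⟨⟨c1, c2⟩, c3'⟩, c4, c5⟩ := hc
  have d1 : S.card ≤ K := c1 h0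
  have d2 := c2 h0 d1
  have d3 := c3' h0
  have d4 := c4 h1
  have d5 := c5 h1 d1
  apply h2
  refine ⟨?_, d5⟩
  unfold RW
  rw [Finset.mem_filter]
  refine ⟨h1, disjoint_empty_right _, d3, d1, d2, ?_⟩
  rw [card_empty]
  omega

/-- **the weighted law** -/
theorem lawR (h : ℕ → ℝ) (M : ℝ) (hh0 : ∀ n, 0 ≤ h n)
    (hhM : ∀ n, h n ≤ M) (ε : ℝ) (hε : 0 < ε) :
    ∀ᶠ X : ℕ in atTop, |∑ S ∈ SP X, h ((∏ p ∈ S, p) % 9) *
      (fR hn S - c3 * 2 ^ S.card)| ≤ ε * X := by
  have hM0 : 0 ≤ M := (hh0 0).trans (hhM 0)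
  have hsie := Pool.Agent.Y488.CX.t_SIE
  have hL := Pool.Agent.Y333.CX.t_LAM
  obtain ⟨C, hC1, hkey⟩ := wkeyR hL Pool.Agent.Y261.CX.t_BIL1 Pool.Agent.Y419.CX.t_EQ
    (Pool.Agent.Y759.CX.t_LA Pool.Agent.Y461.CX.t_C3)
  obtain ⟨CT, hCT, htot⟩ := Run7.h238.C.ED.hcard
  obtain ⟨V, hV⟩ := exists_pow_lt_of_lt_one (show (0 : ℝ) < ε / (8 * (M + 1) * CT) by positivity)
    (show (1 / 3 : ℝ) < 1 by norm_num)
  have s4 := sml_few hsie V
  have s5 := bad hsie hL
  have s6 := Run7.h238.C.sml_main hC1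
  have s := Pool.Agent.R413.SQ.sml_add (Pool.Agent.R413.SQ.sml_add (Pool.Agent.R413.SQ.sml_add
    (Pool.Agent.R413.SQ.sml_add Run7.h238.C.sml_many Run7.h238.C.sml_cut)
    Run7.h238.C.sml_coll) (Pool.Agent.R413.SQ.sml_add s4 s5)) s6
  filter_upwards [s (ε / (4 * (M + 1))) (by positivity), ev_eL 1] with X hX hl
  have hl0 : 0 < eL X := by linarith
  have hXp := X_pos hl0
  have hX0 : (0 : ℝ) < X := by exact_mod_cast hXp
  have e0 : (X : ℝ) * Real.exp (-0 * eL X) = X := by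
    rw [neg_zero, zero_mul, Real.exp_zero, mul_one]
  rw [e0] at hX
  have hN : (H2 X : ℝ) * Real.log X < N2 X := by
    unfold N2
    push_cast
    exact Nat.lt_floor_add_one _
  have hmain := hkey hn X (zz X) (H2 X) (kk X) V (N2 X) (kap C X) hXp (H2_pos hl0)
    (zz_pos hl) (kap_nonneg hC1 X) (kap_pow hC1 hl) hN (fun _ n => h n) M
    (fun _ => hh0) (fun _ => hhM)
  set Q := (RW ∅ X (zz X) (H2 X) (kk X) V).filter
    fun S => Nr hn (sm (zz X) S) (la (zz X) S) with hQ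
  have hQP : Q ⊆ SP X := by
    intro S hS
    rw [hQ, mem_filter] at hS
    have h1 := hS.1
    unfold RW at h1
    rw [mem_filter] at h1
    exact h1.1
  -- the regular part
  have e1 : ∑ S ∈ Q, h ((∏ p ∈ S, p) % 9) * (fR hn S - c3 * 2 ^ S.card) =
      ∑ S ∈ Q, h ((∏ p ∈ S, p) % 9) * fR hn S -
        c3 * ∑ S ∈ Q, h ((∏ p ∈ S, p) % 9) * 2 ^ S.card := by
    rw [mul_sum, ← sum_sub_distrib]
    refine sum_congr rfl fun S _ => ?_
    ring
  have h1 : wt (RW ∅ X (zz X) (H2 X) (kk X) V) ≤ CT * X := by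
    refine (wt_mono ?_).trans (htot X)
    unfold RW
    exact filter_subset _ _
  have hV2 : 2 * (1 / 3 : ℝ) ^ V * wt (RW ∅ X (zz X) (H2 X) (kk X) V) ≤
      ε / (4 * (M + 1)) * X := by
    calc 2 * (1 / 3 : ℝ) ^ V * wt (RW ∅ X (zz X) (H2 X) (kk X) V) ≤
          2 * (ε / (8 * (M + 1) * CT)) * (CT * X) := by
          refine mul_le_mul ?_ h1 (wt_nonneg _) (by positivity)
          linarith
      _ = _ := by
          have : CT ≠ 0 := hCT.ne'
          field_simp
          ring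
  -- the rest
  have hout : wt (SP X \ Q) ≤
      (wt ((Pool.Agent.Y911.CX.TT X).filter fun S => kk X < S.card) +
      wt ((Pool.Agent.Y911.CX.TT X).filter fun S => S.card ≤ kk X ∧
        X < (∏ p ∈ sm (zz X) S, p) * ∏ p ∈ la (zz X) S, XX (H2 X) (jj (H2 X) p)) +
      wt ((Pool.Agent.Y911.CX.TT X).filter fun S =>
        ¬ Set.InjOn (jj (H2 X)) (la (zz X) S : Set ℕ))) +
      (wt ((SP X).filter fun S => (la (zz X) S).card ≤ (sm (zz X) S).card + V) +
      wt ((SP X).filter fun S => S.card ≤ kk X ∧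
        ¬ Nr hn (sm (zz X) S) (la (zz X) S))) := by
    have g1 := wt_mono (out_subR X (zz X) (H2 X) (kk X) V)
    rw [← hQ] at g1
    refine g1.trans ((wt_union _ _).trans (add_le_add ((wt_union _ _).trans
      (add_le_add (wt_union _ _) le_rfl)) (wt_union _ _)))
  have e2 : ∑ S ∈ SP X, h ((∏ p ∈ S, p) % 9) * (fR hn S - c3 * 2 ^ S.card) =
      ∑ S ∈ SP X \ Q, h ((∏ p ∈ S, p) % 9) * (fR hn S - c3 * 2 ^ S.card) +
      ∑ S ∈ Q, h ((∏ p ∈ S, p) % 9) * (fR hn S - c3 * 2 ^ S.card) :=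
    (sum_sdiff hQP).symm
  have h2 : |∑ S ∈ SP X \ Q, h ((∏ p ∈ S, p) % 9) * (fR hn S - c3 * 2 ^ S.card)| ≤
      M * wt (SP X \ Q) := by
    refine (abs_sum_le_sum_abs _ _).trans ?_
    unfold wt
    rw [mul_sum]
    refine sum_le_sum fun S _ => ?_
    rw [abs_mul, abs_of_nonneg (hh0 _)]
    have h3 : |fR hn S - c3 * 2 ^ S.card| ≤ 2 ^ S.card := by
      have k1 := fR_nonneg hn S
      have k2 := fR_le hn S
      have k3 := c3_pos
      have k4 := c3_lt
      have k5 : (0 : ℝ) < 2 ^ S.card := by positivity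
      rw [abs_le]
      constructor <;> nlinarith
    exact mul_le_mul (hhM _) h3 (abs_nonneg _) hM0
  rw [e2]
  refine (abs_add_le _ _).trans ?_
  rw [e1]
  have h3 := add_le_add h2 hmain
  refine h3.trans ?_
  set E := 2 ^ kk X * ((9 * (N2 X : ℝ) + 9) ^ kk X * (3 ^ (12 * kk X ^ 2) * kap C X) *
    (X * (1 + Real.log X))) with hE
  have h4 : wt (SP X \ Q) + E ≤ ε / (4 * (M + 1)) * X := by linarith
  have h5 : wt (SP X \ Q) + (2 * (1 / 3 : ℝ) ^ V *
      wt (RW ∅ X (zz X) (H2 X) (kk X) V) + E) ≤ ε / (M + 1) * X := by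
    have h6 : ε / (4 * (M + 1)) * X + ε / (4 * (M + 1)) * X ≤ ε / (M + 1) * X := by
      rw [← add_mul]
      refine mul_le_mul_of_nonneg_right ?_ hX0.le
      have h7 : (0 : ℝ) < M + 1 := by linarith
      have h8 : ε / (4 * (M + 1)) = 1 / 4 * (ε / (M + 1)) := by
        field_simp
      have h10 : 0 < ε / (M + 1) := by positivity
      rw [h8]
      linarith
    linarith
  rw [← mul_add]
  have h6 : M * (ε / (M + 1) * X) ≤ ε * X := by
    have h7 : (0 : ℝ) < M + 1 := by linarith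
    have h8 : M / (M + 1) ≤ 1 := by
      rw [div_le_one h7]
      linarith
    calc M * (ε / (M + 1) * X) = M / (M + 1) * (ε * X) := by
          field_simp
      _ ≤ 1 * (ε * X) := mul_le_mul_of_nonneg_right h8 (by positivity)
      _ = ε * X := one_mul _
  exact (mul_le_mul_of_nonneg_left h5 hM0).trans h6

end Run7.h238.R
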