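import Pool.Agent.Run7.h238.X.Low
import Pool.Agent.Run7.h238.R.Law
import Pool.Agent.Run7.h238.R.ECr

/-!
# Pairs `(u, v)` with `4 n = u² + 3 v²` and subsets of the set of the primes
-/

set_option autoImplicit false
set_option linter.unusedVariables false

open scoped Classical

namespace Run7.h238.R

open Finset Filter Topology
open Pool.Agent.Y692.QS
open Pool.Agent.Y703.CX
open Run7.h238.C.ERep (PR pf_of_mem)
open Run7.h238.C (SP mem_SP c3_pos c3_lt)
open Run7.h238.WFew (wt)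
open Run7.h238.X (F3 sg sg_ne be nr_be pri_be be_inj exists_be be_compl sqf_prod prod_mod3 prod_one
  low split_empty)

/-- the pair `(u, v)` belongs to some `n ≤ X` -/
def Pr (X : ℕ) (b : ℕ × ℕ) : Prop :=
  0 < b.1 ∧ 0 < b.2 ∧ ¬ 3 ∣ b.2 ∧ ∃ n : ℕ, n ≤ X ∧ Squarefree n ∧ ¬ 3 ∣ n ∧
    4 * n = b.1 ^ 2 + 3 * b.2 ^ 2

/-- the pairs -/
noncomputable def PM (X : ℕ) : Finset (ℕ × ℕ) :=
  ((range (4 * X + 1)) ×ˢ (range (4 * X + 1))).filter (Pr X)

theorem mem_PM {X : ℕ} {b : ℕ × ℕ} : b ∈ PM X ↔ Pr X b := by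
  unfold PM
  rw [mem_filter, mem_product, mem_range, mem_range]
  refine ⟨fun h => h.2, fun h => ⟨?_, h⟩⟩
  obtain ⟨h1, h2, -, n, h3, -, -, h4⟩ := h
  constructor <;> nlinarith

/-- the pair of an element -/
def fb (z : Ei) : ℕ × ℕ := ((z.re + z.im).natAbs, (z.re - z.im).natAbs)

theorem pri_iff (z : Ei) : (3 : Ei) ∣ z - 1 ↔ z.re % 3 = 1 ∧ z.im % 3 = 0 := by
  have h2 := int_dvd (n := 3) (α := z - 1)
  rw [QuadraticAlgebra.re_sub, QuadraticAlgebra.re_one, QuadraticAlgebra.im_sub,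
    QuadraticAlgebra.im_one, sub_zero] at h2
  have h3 : (3 : Ei) ∣ z - 1 ↔ (((3 : ℤ) : Ei)) ∣ z - 1 := by norm_cast
  rw [h3, h2]
  omega

theorem nr_four (z : Ei) : 4 * nr z = (z.re + z.im) ^ 2 + 3 * (z.re - z.im) ^ 2 := by
  unfold nr
  ring

/-- the pairs of the primary elements determine the elements -/
theorem fb_inj {z z' : Ei} (h : (3 : Ei) ∣ z - 1) (h' : (3 : Ei) ∣ z' - 1) (he : fb z = fb z') :
    z = z' := by
  rw [pri_iff] at h h'
  unfold fb at he
  rw [Prod.mk.injEq] at he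
  obtain ⟨h1, h2⟩ := he
  have e : z.re = z'.re ∧ z.im = z'.im := by
    rcases Int.natAbs_eq_natAbs_iff.1 h1 with a | a <;>
    rcases Int.natAbs_eq_natAbs_iff.1 h2 with b | b <;> omega
  exact QuadraticAlgebra.ext e.1 e.2

/-- the conductor of a pair -/
theorem pair_n3 {u v n : ℕ} (h3 : ¬ 3 ∣ n) (h4 : 4 * n = u ^ 2 + 3 * v ^ 2) :
    n % 3 = 1 ∧ u % 3 ≠ 0 := by
  have hu : u % 3 = 0 ∨ u ^ 2 % 3 = 1 := by
    have : u % 3 = 0 ∨ u % 3 = 1 ∨ u % 3 = 2 := by omega
    rcases this with h | h | h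
    · exact Or.inl h
    · right
      rw [Nat.pow_mod, h]
    · right
      rw [Nat.pow_mod, h]
  rcases hu with hu | hu
  · exfalso
    have h5 : u ^ 2 % 3 = 0 := by
      rw [Nat.pow_mod, hu]
    omega
  · refine ⟨by omega, fun h => ?_⟩
    rw [Nat.pow_mod, h] at hu
    norm_num at hu

/-- a primary element with a given pair -/
theorem exists_pri {u v n : ℕ} (h3 : ¬ 3 ∣ n) (hv : ¬ 3 ∣ v) (h4 : 4 * n = u ^ 2 + 3 * v ^ 2) :
    ∃ z : Ei, (3 : Ei) ∣ z - 1 ∧ nr z = (n : ℤ) ∧ fb z = (u, v) := by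
  obtain ⟨hn, hu⟩ := pair_n3 h3 h4
  obtain ⟨s, hs, hs3⟩ : ∃ s : ℤ, s.natAbs = u ∧ s % 3 = 1 := by
    by_cases h : u % 3 = 1
    · exact ⟨u, Int.natAbs_natCast u, by omega⟩
    · exact ⟨-u, by rw [Int.natAbs_neg, Int.natAbs_natCast], by omega⟩
  obtain ⟨t, ht, ht3⟩ : ∃ t : ℤ, t.natAbs = v ∧ t % 3 = 1 := by
    by_cases h : v % 3 = 1
    · exact ⟨v, Int.natAbs_natCast v, by omega⟩
    · exact ⟨-v, by rw [Int.natAbs_neg, Int.natAbs_natCast], by omega⟩
  have h5 : 4 * (n : ℤ) = s ^ 2 + 3 * t ^ 2 := by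
    have h6 : 4 * (n : ℤ) = (u : ℤ) ^ 2 + 3 * (v : ℤ) ^ 2 := by exact_mod_cast h4
    rw [h6, ← hs, ← ht, Int.natCast_natAbs, Int.natCast_natAbs, sq_abs, sq_abs]
  have hpar : (s + t) % 2 = 0 := by
    have h6 : (s ^ 2 + 3 * t ^ 2) % 2 = 0 := by omega
    have h7 : ∀ x : ℤ, x ^ 2 % 2 = x % 2 := by
      intro x
      rcases Int.emod_two_eq_zero_or_one x with h | h <;> rw [pow_two, Int.mul_emod, h] <;> rfl
    have h8 := h7 s
    have h9 := h7 t
    omega
  obtain ⟨a, ha⟩ : ∃ a : ℤ, s + t = 2 * a := ⟨(s + t) / 2, by omega⟩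
  have hb : s - t = 2 * (s - a) := by linarith
  refine ⟨⟨a, s - a⟩, ?_, ?_, ?_⟩
  · rw [pri_iff]
    simp only
    omega
  · have h6 := nr_four (⟨a, s - a⟩ : Ei)
    simp only at h6
    have e1 : a + (s - a) = s := by ring
    have e2 : a - (s - a) = t := by linarith
    rw [e1, e2, ← h5] at h6
    linarith
  · unfold fb
    have e1 : a + (s - a) = s := by ring
    have e2 : a - (s - a) = t := by linarith
    simp only
    rw [e1, e2, hs, ht]

theorem facts {n : ℕ} (hsq : Squarefree n) {z : Ei} (h3 : (3 : Ei) ∣ z - 1)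
    (hz : nr z = (n : ℤ)) (hn3 : n % 3 = 1) :
    (∀ p ∈ n.primeFactors, p.Prime ∧ p % 3 = 1) ∧ ∏ p ∈ n.primeFactors, p = n := by
  have hPR : z ∈ PR n := by
    refine ⟨hz, fun l hl hd => ?_⟩
    obtain ⟨c, hc⟩ := hd
    have h5 := congrArg nr hc
    rw [hz, nr_mul, nr_nat] at h5
    have h6 : l * l ∣ n := by
      have : ((l * l : ℕ) : ℤ) ∣ (n : ℤ) := ⟨nr c, by rw [h5]; push_cast; ring⟩
      exact_mod_cast this
    have h7 := hsq l h6
    rw [Nat.isUnit_iff] at h7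
    exact hl.one_lt.ne' h7
  exact ⟨fun p hp => ⟨Nat.prime_of_mem_primeFactors hp,
    pf_of_mem (by omega) hPR p hp⟩, Nat.prod_primeFactors_of_squarefree hsq⟩

section
variable {R : Finset ℕ → Finset ℕ → Prop} {Gp : ℕ × ℕ → Prop}

/-- the good pairs of sets -/
noncomputable def sR (R : Finset ℕ → Finset ℕ → Prop) (X : ℕ) :
    Finset ((_ : Finset ℕ) × Finset ℕ) :=
  (SP X).sigma fun S => S.powerset.filter fun A => R S A

/-- the translation -/
def Tr (R : Finset ℕ → Finset ℕ → Prop) (Gp : ℕ × ℕ → Prop) : Prop :=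
  ∀ (S A : Finset ℕ), (∀ p ∈ S, p.Prime ∧ p % 3 = 1) → A ⊆ S → (Gp (fb (be S A)) ↔ R S A)

/-- **the number of the good pairs** -/
theorem card_good (hT : Tr R Gp) (X : ℕ) : (((PM X).filter Gp).card : ℝ) =
    ∑ S ∈ SP X, ((S.powerset.filter fun A => R S A).card : ℝ) := by
  have h0 : ((PM X).filter Gp).card = (sR R X).card := by
    symm
    apply Finset.card_bij (fun x _ => fb (be x.1 x.2))
    · rintro ⟨S, A⟩ hx
      unfold sR at hx
      rw [mem_sigma, mem_filter, mem_powerset, mem_SP] at hx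
      simp only at hx ⊢
      obtain ⟨⟨hS, hX⟩, hA, hg⟩ := hx
      have h3 := (pri_iff _).1 (pri_be (A := A) hS)
      have h4 := nr_four (be S A)
      rw [nr_be hS] at h4
      have hm := prod_mod3 hS
      rw [mem_filter, mem_PM]
      refine ⟨⟨?_, ?_, ?_, ∏ p ∈ S, p, hX, sqf_prod hS, by omega, ?_⟩, (hT S A hS hA).2 hg⟩
      · show 0 < ((be S A).re + (be S A).im).natAbs
        omega
      · show 0 < ((be S A).re - (be S A).im).natAbs
        omega
      · show ¬ 3 ∣ ((be S A).re - (be S A).im).natAbs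
        omega
      · have h5 : ((4 * ∏ p ∈ S, p : ℕ) : ℤ) = (((be S A).re + (be S A).im).natAbs ^ 2 +
            3 * ((be S A).re - (be S A).im).natAbs ^ 2 : ℕ) := by
          push_cast
          rw [sq_abs, sq_abs, ← h4]
          push_cast
          rfl
        exact_mod_cast h5
    · rintro ⟨S, A⟩ hx ⟨T, B⟩ hy he
      unfold sR at hx hy
      rw [mem_sigma, mem_filter, mem_powerset, mem_SP] at hx hy
      simp only at hx hy he
      obtain ⟨e1, e2⟩ := be_inj hx.1.1 hy.1.1 hx.2.1 hy.2.1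
        (fb_inj (pri_be hx.1.1) (pri_be hy.1.1) he)
      rw [e1, e2]
    · rintro ⟨u, v⟩ hb
      rw [mem_filter, mem_PM] at hb
      obtain ⟨⟨hu, hv, hv3, n, hnX, hsq, hn3, h4⟩, hG⟩ := hb
      simp only at hu hv hv3 h4
      obtain ⟨z, hz3, hzn, hzf⟩ := exists_pri hn3 hv3 h4
      obtain ⟨hS, hP⟩ := facts hsq hz3 hzn (pair_n3 hn3 h4).1
      obtain ⟨A, hA, hzA⟩ := exists_be hS hz3 (by rw [hP, hzn])
      refine ⟨⟨n.primeFactors, A⟩, ?_, ?_⟩
      · unfold sR
        rw [mem_sigma, mem_filter, mem_powerset, mem_SP]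
        refine ⟨⟨hS, by rw [hP]; exact hnX⟩, hA, ?_⟩
        rw [← hT _ _ hS hA, ← hzA, hzf]
        exact hG
      · simp only
        rw [← hzA, hzf]
  rw [h0]
  unfold sR
  rw [card_sigma]
  push_cast
  rfl

end

/-- **the number of all pairs** -/
theorem card_all (X : ℕ) : (((PM X).card : ℝ)) = wt (SP X) := by
  have h1 := card_good (R := fun _ _ => True) (Gp := fun _ => True) (fun _ _ _ _ => Iff.rfl) X
  rw [filter_true] at h1
  rw [h1]
  unfold wt
  refine sum_congr rfl fun S _ => ?_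
  rw [filter_true, card_powerset]
  push_cast
  rfl

/-- **the proportion** -/
theorem ratio {Gp : ℕ × ℕ → Prop}
    (hT : Tr (fun S A => S.Nonempty ∧ GdR hn (sg A) S) Gp) :
    Tendsto (fun X : ℕ => (((PM X).filter Gp).card : ℝ) / ((PM X).card : ℝ)) atTop (nhds c3) := by
  obtain ⟨c, hc, hlow⟩ := low
  rw [Metric.tendsto_atTop']
  intro ε hε
  have h0 := c3_pos
  have h1 := c3_lt
  have hlaw := lawR (fun _ => 1) 1 (fun _ => zero_le_one) (fun _ => le_rfl) (c * ε / 4)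
    (by positivity)
  have hlarge : ∀ᶠ X : ℕ in atTop, 4 / (c * ε) ≤ (X : ℝ) :=
    tendsto_natCast_atTop_atTop.eventually (eventually_ge_atTop _)
  have hev := (hlow.and (hlaw.and (hlarge.and (eventually_ge_atTop 1)))).exists_forall_of_atTop
  obtain ⟨N, hN⟩ := hev
  refine ⟨N, fun X hX => ?_⟩
  obtain ⟨a1, a2, a3, a4⟩ := hN X hX.le
  have hX0 : (0 : ℝ) < X := by exact_mod_cast a4
  have hg := card_good hT X
  have ha := card_all X
  set G : ℝ := (((PM X).filter Gp).card : ℝ) with hGd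
  set T : ℝ := ((PM X).card : ℝ) with hTd
  simp only [one_mul] at a2
  have e2 : ∑ S ∈ SP X, (2 : ℝ) ^ S.card = T := by
    rw [ha]
    rfl
  rw [sum_sub_distrib, ← mul_sum, e2, split_empty a4] at a2
  have e1 : G = ∑ S ∈ (SP X).filter (·.Nonempty), fR hn S := by
    rw [hg, split_empty a4]
    have e5 : ∀ a b c : ℝ, a = 0 → b = c → a + b = c := by
      intro a b c h1 h2
      rw [h1, h2, zero_add]
    refine e5 _ _ _ ?_ (sum_congr rfl fun S hS => ?_)
    · rw [Nat.cast_eq_zero, card_eq_zero]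
      apply Finset.eq_empty_of_forall_notMem
      intro A hA
      simp only [Finset.mem_filter] at hA
      exact Finset.not_nonempty_empty hA.2.1
    rw [mem_filter] at hS
    unfold fR
    congr 2
    ext A
    simp only [hS.2, true_and]
  rw [← e1] at a2
  have f1 := fR_nonneg hn ∅
  have f2 := fR_le hn ∅
  rw [card_empty, pow_zero] at f2
  rw [← ha] at a1
  have hT0 : 0 < T := by
    have : 0 < c * X := by positivity
    linarith
  rw [div_le_iff₀ (by positivity)] at a3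
  have b4 : |G - c3 * T| ≤ c * ε / 4 * X + 1 := by
    rw [abs_le] at a2 ⊢
    obtain ⟨a5, a6⟩ := a2
    constructor <;> nlinarith
  rw [Real.dist_eq]
  have e : G / T - c3 = (G - c3 * T) / T := by
    field_simp
  rw [e, abs_div, abs_of_pos hT0, div_lt_iff₀ hT0]
  calc |G - c3 * T| ≤ c * ε / 4 * X + 1 := b4
    _ ≤ ε / 4 * (c * X) + ε / 4 * (c * X) := by nlinarith
    _ ≤ ε / 4 * T + ε / 4 * T := by gcongr
    _ < ε * T := by nlinarith

end Run7.h238.R
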