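import Pool.Agent.Run7.h238.X.TriX
import Pool.Agent.Run7.h238.R.Cnt

/-!
# The criterion over the field of the third roots of unity, with the additional factor `ω`
-/

set_option autoImplicit false
set_option linter.unusedVariables false
set_option linter.unusedSectionVars false

open scoped Classical

namespace Run7.h238.R

open Finset NumberField
open Pool.Agent.Y692.QS
open Pool.Agent.Y703.CX (lam)
open Pool.Agent.Y703.CT (Dt pD Ker)
open Pool.Agent.N883.FF (nq KerB pB)
open Pool.Agent.Y696.CTK (ED Tri)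
open Pool.Agent.TH841.NF.D (Sha)
open Run7.h238.X (F3 sg sg_ne be nr_be pri_be be_compl TriK ph ph_apply sq_j cast_abs prod_one)

variable {S A : Finset ℕ}

theorem eS_compl (hA : A ⊆ S) (i : Jr S) : eS (S \ A) S i = -eS A S i := by
  have hs : ∀ l ∈ S, sg (S \ A) l = -sg A l := by
    intro l hl
    unfold sg
    have hm : l ∈ S \ A ↔ l ∉ A := by
      rw [mem_sdiff]
      exact ⟨fun h => h.2, fun h => ⟨hl, h⟩⟩
    by_cases h' : l ∈ A
    · rw [if_neg (fun h'' => hm.1 h'' h'), if_pos h']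
    · rw [if_pos (hm.2 h'), if_neg h', neg_neg]
  rcases i with ⟨b, p⟩
  cases b
  · show -sg (S \ A) p = -(-sg A p)
    rw [hs p p.2]
  · show sg (S \ A) p = -sg A p
    rw [hs p p.2]

/-- the conjugate data -/
theorem kerB_compl (hA : A ⊆ S) :
    KerB (pS S) (eS (S \ A) S) 2 ↔ KerB (pS S) (eS A S) 1 := by
  unfold KerB
  refine forall_congr' fun v => imp_congr_left ?_
  refine forall_congr' fun j => ?_
  have e1 : ∑ k, eS (S \ A) S k * Pool.Agent.Y715.T.Rec.cs (pS S j) (pS S k) * (v k - v j) =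
      -∑ k, eS A S k * Pool.Agent.Y715.T.Rec.cs (pS S j) (pS S k) * (v k - v j) := by
    rw [← Finset.sum_neg_distrib]
    refine sum_congr rfl fun k _ => ?_
    rw [eS_compl hA]
    ring
  have e2 : (2 : ZMod 3) = -1 := by decide
  rw [e1, e2]
  constructor
  · intro h
    linear_combination -h
  · intro h
    linear_combination -h

theorem pB_compl (hS : ∀ p ∈ S, p.Prime ∧ p % 3 = 1) :
    pB (pS S) (eS (S \ A) S) 2 = w ^ 2 * (((∏ p ∈ S, p : ℕ) : Ei) * be S (S \ A)) := by
  unfold pB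
  rw [pD_pS hS]
  have v1 : (2 : ZMod 3).val = 2 := rfl
  rw [v1]

section
variable {K : Type} [Field K] [NumberField K]

theorem tri_pS (j : Ei ≃+* 𝓞 K) (hS : ∀ p ∈ S, p.Prime ∧ p % 3 = 1) (hA : A ⊆ S)
    (hne : S.Nonempty) {z : Ei}
    (hz : (z = w * (((∏ p ∈ S, p : ℕ) : Ei) * be S A) ∨
      z = -(w * (((∏ p ∈ S, p : ℕ) : Ei) * be S A))) ∨
      (z = w ^ 2 * (((∏ p ∈ S, p : ℕ) : Ei) * be S (S \ A)) ∨
      z = -(w ^ 2 * (((∏ p ∈ S, p : ℕ) : Ei) * be S (S \ A))))) :
    Tri (j z) ↔ GdR hn (sg A) S := by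
  obtain ⟨p, hp⟩ := hne
  have : Nonempty (Jr S) := ⟨(true, ⟨p, hp⟩)⟩
  rw [← kerB_iff hS]
  rcases hz with hz | hz
  · have hD := dt_pS (A := A) hS
    rcases hz with h | h
    · have e : z = pB (pS S) (eS A S) 1 * 1 ^ 3 := by
        rw [h, pB_pS hS]
        ring
      rw [e]
      exact Run7.h707.TC.tri_B3 j hD (by decide) (by norm_num)
    · have e : z = pB (pS S) (eS A S) 1 * (-1) ^ 3 := by
        rw [h, pB_pS hS]
        ring
      rw [e]
      exact Run7.h707.TC.tri_B3 j hD (by decide) (by norm_num)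
  · have hD := dt_pS (A := S \ A) hS
    rw [← kerB_compl hA]
    rcases hz with h | h
    · have e : z = pB (pS S) (eS (S \ A) S) 2 * 1 ^ 3 := by
        rw [h, pB_compl hS]
        ring
      rw [e]
      exact Run7.h707.TC.tri_B3 j hD (by decide) (by norm_num)
    · have e : z = pB (pS S) (eS (S \ A) S) 2 * (-1) ^ 3 := by
        rw [h, pB_compl hS]
        ring
      rw [e]
      exact Run7.h707.TC.tri_B3 j hD (by decide) (by norm_num)

/-- the good pairs -/
def Gr (K : Type) [Field K] [NumberField K] (b : ℕ × ℕ) : Prop :=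
  ∀ n : ℕ, 4 * n = b.1 ^ 2 + 3 * b.2 ^ 2 → 1 < n ∧ ∀ s : K, s ^ 2 = -3 →
    TriK ((n : K) * (((b.1 : K) + (b.2 : K) * s) / 2))

/-- the element `(u + v √-3) / 2` -/
def bt (u v : ℤ) : Ei := ⟨(u + v) / 2, v⟩

theorem bt_two {u v : ℤ} (h : (u + v) % 2 = 0) :
    2 * bt u v = (u : Ei) + (v : Ei) * (1 + 2 * w) := by
  have e1 : ((u : Ei) + (v : Ei) * (1 + 2 * w)) = ⟨u + v, 2 * v⟩ := by
    ext
    · rw [QuadraticAlgebra.re_add, mul_re]
      have : ((1 : Ei) + 2 * w).re = 1 ∧ ((1 : Ei) + 2 * w).im = 2 := ⟨by decide, by decide⟩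
      rw [this.1, this.2]
      simp
    · rw [QuadraticAlgebra.im_add, mul_im]
      have : ((1 : Ei) + 2 * w).re = 1 ∧ ((1 : Ei) + 2 * w).im = 2 := ⟨by decide, by decide⟩
      rw [this.1, this.2]
      simp
      ring
  rw [e1]
  have h2 : (2 : Ei) = ⟨2, 0⟩ := by decide
  ext
  · rw [mul_re, h2]
    show 2 * ((u + v) / 2) - 0 * v = u + v
    omega
  · rw [mul_im, h2]
    show 2 * v + 0 * ((u + v) / 2) - 0 * v = 2 * v
    ring

theorem coe_bt (j : Ei ≃+* 𝓞 K) {u v : ℤ} (h : (u + v) % 2 = 0) :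
    ph j (bt u v) = ((u : K) + (v : K) * ph j (1 + 2 * w)) / 2 := by
  have h2 := congrArg (ph j) (bt_two h)
  rw [map_mul, map_add, map_mul, map_intCast, map_intCast, map_ofNat] at h2
  rw [eq_div_iff (two_ne_zero : (2 : K) ≠ 0), mul_comm]
  exact h2

/-- the product with `ω` -/
theorem w_mul (z : Ei) : w * z = bt (-(z.re + z.im)) (z.re - z.im) := by
  have hw : w.re = 0 ∧ w.im = 1 := ⟨rfl, rfl⟩
  ext
  · rw [mul_re, hw.1, hw.2]
    show _ = (-(z.re + z.im) + (z.re - z.im)) / 2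
    omega
  · rw [mul_im, hw.1, hw.2]
    show _ = z.re - z.im
    ring

theorem w2_star (z : Ei) : w ^ 2 * star z = bt (-(z.re + z.im)) (-(z.re - z.im)) := by
  have hw : (w ^ 2).re = -1 ∧ (w ^ 2).im = -1 := ⟨by decide, by decide⟩
  ext
  · rw [mul_re, hw.1, hw.2, star_re, star_im]
    show _ = (-(z.re + z.im) + -(z.re - z.im)) / 2
    omega
  · rw [mul_im, hw.1, hw.2, star_re, star_im]
    show _ = -(z.re - z.im)
    ring

theorem tr_Gr [IsCyclotomicExtension {3} ℚ K] :
    Tr (fun S A => S.Nonempty ∧ GdR hn (sg A) S) (Gr K) := by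
  obtain ⟨⟨j, -⟩, -⟩ := Pool.Agent.Y455.CTK.jex K
  intro S A hS hA
  set n : ℕ := ∏ p ∈ S, p with hnd
  set z : Ei := be S A with hz
  set U : ℤ := -(z.re + z.im) with hU
  set V : ℤ := z.re - z.im with hV
  have hfb : fb z = (U.natAbs, V.natAbs) := by
    unfold fb
    rw [hU, Int.natAbs_neg]
  have h4 : 4 * (n : ℤ) = U ^ 2 + 3 * V ^ 2 := by
    rw [hnd, ← nr_be (A := A) hS, nr_four, hU, hV]
    ring
  have h4' : 4 * n = U.natAbs ^ 2 + 3 * V.natAbs ^ 2 := by
    have h5 : ((4 * n : ℕ) : ℤ) = ((U.natAbs ^ 2 + 3 * V.natAbs ^ 2 : ℕ) : ℤ) := by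
      push_cast
      rw [sq_abs, sq_abs]
      exact h4
    exact_mod_cast h5
  have hpar : (U + V) % 2 = 0 := by omega
  have hpar' : (U + -V) % 2 = 0 := by omega
  rw [hfb]
  rcases S.eq_empty_or_nonempty with hSe | hne
  · constructor
    · intro h
      have h1 := (h n h4').1
      rw [hnd, hSe, prod_empty] at h1
      omega
    · rintro ⟨h, -⟩
      rw [hSe] at h
      exact absurd h Finset.not_nonempty_empty
  have hn1 : 1 < n := by
    have h1 : n ≠ 1 := fun h => hne.ne_empty (prod_one hS h)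
    have h2 : 0 < n := prod_pos fun p hp => (hS p hp).1.pos
    omega
  -- the values
  have key : ∀ s : K, s ^ 2 = -3 →
      (TriK ((n : K) * (((U.natAbs : K) + (V.natAbs : K) * s) / 2)) ↔ GdR hn (sg A) S) := by
    intro s hs
    set s₀ : K := ph j (1 + 2 * w) with hs₀
    have hs₀2 : s₀ ^ 2 = -3 := sq_j j
    have hss : s = s₀ ∨ s = -s₀ := by
      have h1 : (s - s₀) * (s + s₀) = 0 := by linear_combination hs - hs₀2
      rcases mul_eq_zero.1 h1 with h | h
      · left; linear_combination h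
      · right; linear_combination h
    have cU := cast_abs (K := K) U
    have cV := cast_abs (K := K) V
    have b1 := coe_bt j hpar
    have b2 := coe_bt j hpar'
    have eV : ((-V : ℤ) : K) = -(V : K) := Int.cast_neg V
    rw [eV] at b2
    rw [← hs₀] at b1 b2
    have c1 : ph j (w * ((n : Ei) * be S A)) = (n : K) * (((U : K) + (V : K) * s₀) / 2) := by
      have e : w * ((n : Ei) * be S A) = (n : Ei) * (w * z) := by
        rw [← hz]
        ring
      rw [e, map_mul, map_natCast, w_mul, ← hU, ← hV, b1]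
    have c2 : ph j (w ^ 2 * ((n : Ei) * be S (S \ A))) =
        (n : K) * (((U : K) + -(V : K) * s₀) / 2) := by
      have e : w ^ 2 * ((n : Ei) * be S (S \ A)) = (n : Ei) * (w ^ 2 * star z) := by
        rw [be_compl, ← hz]
        ring
      rw [e, map_mul, map_natCast, w2_star, ← hU, ← hV, b2]
    have c3 : ph j (-(w * ((n : Ei) * be S A))) =
        -((n : K) * (((U : K) + (V : K) * s₀) / 2)) := by
      rw [map_neg, ← c1]
    have c4 : ph j (-(w ^ 2 * ((n : Ei) * be S (S \ A)))) =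
        -((n : K) * (((U : K) + -(V : K) * s₀) / 2)) := by
      rw [map_neg, ← c2]
    -- the four values
    have main : ∃ (x : Ei), ((x = w * ((n : Ei) * be S A) ∨ x = -(w * ((n : Ei) * be S A))) ∨
        (x = w ^ 2 * ((n : Ei) * be S (S \ A)) ∨ x = -(w ^ 2 * ((n : Ei) * be S (S \ A))))) ∧
        ph j x = (n : K) * (((U.natAbs : K) + (V.natAbs : K) * s) / 2) := by
      rcases cU with hU | hU <;> rcases cV with hV | hV <;> rcases hss with h | h <;>
        rw [hU, hV, h]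
      · exact ⟨_, Or.inl (Or.inl rfl), c1⟩
      · exact ⟨_, Or.inr (Or.inl rfl), by rw [c2]; ring⟩
      · exact ⟨_, Or.inr (Or.inl rfl), by rw [c2]⟩
      · exact ⟨_, Or.inl (Or.inl rfl), by rw [c1]; ring⟩
      · exact ⟨_, Or.inr (Or.inr rfl), by rw [c4]; ring⟩
      · exact ⟨_, Or.inl (Or.inr rfl), by rw [c3]; ring⟩
      · exact ⟨_, Or.inl (Or.inr rfl), by rw [c3]; ring⟩
      · exact ⟨_, Or.inr (Or.inr rfl), by rw [c4]; ring⟩
    obtain ⟨x, hx, hjx⟩ := main
    rw [← hjx]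
    have h6 : TriK (ph j x) ↔ Tri (j x) := Iff.rfl
    rw [h6]
    exact tri_pS j hS hA hne hx
  constructor
  · intro h
    exact ⟨hne, (key _ (sq_j j)).1 ((h n h4').2 _ (sq_j j))⟩
  · rintro ⟨-, h⟩ m hm
    have hmn : m = n := by
      simp only at hm
      omega
    subst hmn
    exact ⟨hn1, fun s hs => (key s hs).2 h⟩

end

end Run7.h238.R
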