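import Pool.Agent.Run7.h238.R.Fld
import Pool.Agent.Run7.h238.R.LSer
import Pool.Agent.Run7.h238.R.TriR
import Pool.Agent.Run7.h741.CR.B6

/-!
# The curve `y² + y = x³` over the cyclic cubic fields in which `3` ramifies
-/

set_option autoImplicit false
set_option linter.unusedVariables false
set_option linter.unusedSectionVars false

open scoped Classical

namespace Run7.h238.R

open Finset NumberField Filter
open Pool.Agent.Y692.QS
open Pool.Agent.Y703.CX (lam)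
open Pool.Agent.Y703.CT (Dt pD Ker)
open Pool.Agent.N883.FF (nq KerB pB)
open Pool.Agent.Run7.h289.RD (IsPair' field_of' pair_of' iso_of')
open Pool.Agent.Y696.CTK (ED)
open Pool.Agent.TH841.NF.D (Sha)
open Run7.h238.WFew (wt)
open Run7.h238.C (SP)
open Run7.h238.X (F3 sg sg_ne be nr_be pri_be be_compl TriK exists_be low prod_one)

/-- the data of the field of a good pair -/
theorem pair_data (K : Type) [Field K] [NumberField K] [IsCyclotomicExtension {3} ℚ K]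
    {u v n : ℕ} (hn : 4 * n = u ^ 2 + 3 * v ^ 2) (hsq : Squarefree n) (h3n : ¬ 3 ∣ n)
    (h3v : ¬ 3 ∣ v) (hG : Gr K (u, v)) :
    ∃ (S : Finset ℕ) (_ : Nonempty (Jr S)) (e : Jr S → ZMod 3) (i : ZMod 3),
      Dt (pS S) e ∧ i ≠ 0 ∧
      (((n : ℕ) : Ei) * Pool.Agent.Run7.h741.CR.bt u v = pB (pS S) e i ∨
        ((n : ℕ) : Ei) * Pool.Agent.Run7.h741.CR.bt u v = -pB (pS S) e i) ∧ KerB (pS S) e i := by
  obtain ⟨z, hz3, hzn, hzf⟩ := exists_pri h3n h3v hn
  obtain ⟨hS, hP⟩ := facts hsq hz3 hzn (pair_n3 h3n hn).1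
  set S := n.primeFactors with hSd
  obtain ⟨A, hA, hzA⟩ := exists_be hS hz3 (by rw [hP, hzn])
  have hg := (tr_Gr (K := K) S A hS hA).1 (by rw [← hzA, hzf]; exact hG)
  obtain ⟨hne, hg⟩ := hg
  have hk := (kerB_iff hS).2 hg
  obtain ⟨p, hp⟩ := hne
  have hN : Nonempty (Jr S) := ⟨(true, ⟨p, hp⟩)⟩
  have c1 : pB (pS S) (eS A S) 1 = (n : Ei) * (w * z) := by
    rw [pB_pS hS, hP, ← hzA]
    ring
  have c2 : pB (pS S) (eS (S \ A) S) 2 = (n : Ei) * (w ^ 2 * star z) := by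
    rw [pB_compl hS, hP, be_compl, ← hzA]
    ring
  rw [w_mul] at c1
  rw [w2_star] at c2
  set U : ℤ := -(z.re + z.im) with hU
  set V : ℤ := z.re - z.im with hV
  have h4 : 4 * (n : ℤ) = U ^ 2 + 3 * V ^ 2 := by
    rw [← hzn, nr_four, hU, hV]
    ring
  have hpar : (U + V) % 2 = 0 := by omega
  have hfb : (U.natAbs, V.natAbs) = (u, v) := by
    rw [← hzf]
    unfold fb
    rw [hU, Int.natAbs_neg]
  rw [Prod.mk.injEq] at hfb
  have cU : (u : ℤ) = U ∨ (u : ℤ) = -U := by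
    have := hfb.1
    omega
  have cV : (v : ℤ) = V ∨ (v : ℤ) = -V := by
    have := hfb.2
    omega
  have hbn : ∀ a b : ℤ, (a + b) % 2 = 0 → bt (-a) (-b) = -bt a b := by
    intro a b h
    ext
    · show (-a + -b) / 2 = -((a + b) / 2)
      omega
    · rfl
  have e0 : Pool.Agent.Run7.h741.CR.bt u v = bt u v := rfl
  rw [e0]
  rcases cU with h1 | h1 <;> rcases cV with h2 | h2 <;> rw [h1, h2]
  · exact ⟨S, hN, eS A S, 1, dt_pS hS, by decide, Or.inl c1.symm, hk⟩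
  · exact ⟨S, hN, eS (S \ A) S, 2, dt_pS hS, by decide, Or.inl c2.symm, (kerB_compl hA).2 hk⟩
  · refine ⟨S, hN, eS (S \ A) S, 2, dt_pS hS, by decide, Or.inr ?_, (kerB_compl hA).2 hk⟩
    have h3 : bt (-U) V = -bt U (-V) := by
      have := hbn U (-V) (by omega)
      rwa [neg_neg V] at this
    rw [c2, h3, mul_neg]
  · refine ⟨S, hN, eS A S, 1, dt_pS hS, by decide, Or.inr ?_, hk⟩
    rw [c1, hbn U V hpar, mul_neg]

/-- **The good fields.** -/
theorem overF (K : Type) [Field K] [NumberField K] [IsCyclotomicExtension {3} ℚ K]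
    {u v : ℕ} (hG : Gr K (u, v))
    {F : Type} [Field F] [NumberField F] (hd : Module.finrank ℚ F = 3) (hp : IsPair' F u v) :
    Finite (ED (1 : F)).toAffine.Point ∧
    (∀ (k : ℕ) (y : Sha (ED (1 : F))), 3 ^ k • y = 0 → 3 • y = 0) ∧
    ∃ Λ : ℂ → ℂ, AnalyticOnNhd ℂ Λ {s | (1 / 2 : ℝ) < s.re} ∧ Λ 1 ≠ 0 ∧
      ∀ s : ℂ, 3 / 2 < s.re → Λ s = (ED (1 : F)).LSeries s := by
  obtain ⟨hu, hv, h3v, n, hn, hsq, h3n, hdisc, th, hth⟩ := hp
  obtain ⟨S, hN, e, i, hD, hi0, hDp, hk⟩ := pair_data K hn hsq h3n h3v hG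
  have h4' : 4 * (n : ℤ) = (u : ℤ) ^ 2 + 3 * (v : ℤ) ^ 2 := by exact_mod_cast hn
  have hth' : th ^ 3 = 3 * (n : F) * th + (n : F) * (((u : ℕ) : ℤ) : F) := by
    rw [hth]
    push_cast
    rfl
  obtain ⟨a1, a2, G, a3, a4, a5⟩ := Pool.Agent.Run7.h741.CR.fieldB (c := 1) (Or.inl rfl)
    h4' hsq h3n (by exact_mod_cast hv.ne') hD hi0 (by rw [Nat.cast_one, one_mul]; exact hDp) hk th
    hd hth'
  have h5 := lserG (c := 1) (bad_one hd) hsq.ne_zero a3 a4 a5
  rw [Nat.cast_one] at a1 a2 h5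
  exact ⟨a1, a2, h5⟩

theorem tendsto_div9 : Tendsto (fun X : ℕ => X / 9) atTop atTop :=
  tendsto_atTop_atTop.2 fun b => ⟨9 * b, fun a h => by
    show b ≤ a / 9
    omega⟩

/-- the number of the fields -/
theorem many' : ∃ c : ℝ, 0 < c ∧ ∃ X₀ : ℕ, ∀ X : ℕ, X₀ ≤ X →
    c * X ≤ ({F : Subfield ℂ | Cyr X F}.ncard : ℝ) := by
  obtain ⟨c, hc, hlow⟩ := low
  have h := tendsto_div9.eventually hlow
  obtain ⟨X₀, h⟩ := (h.and (eventually_ge_atTop 9)).exists_forall_of_atTop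
  refine ⟨c / 18, by positivity, X₀, fun X hX => ?_⟩
  obtain ⟨a1, a2⟩ := h X hX
  have e := card_fields' (Gp := fun _ => True) (GF := fun _ => True) X
    (fun _ _ _ _ _ _ _ => Iff.rfl)
  simp only [and_true, filter_true] at e
  rw [e, card_all]
  refine le_trans ?_ a1
  have h1 : X ≤ 18 * (X / 9) := by omega
  have h2 : (X : ℝ) ≤ 18 * ((X / 9 : ℕ) : ℝ) := by exact_mod_cast h1
  nlinarith

/-- **The proportion.** -/
theorem prop_fields' (K : Type) [Field K] [NumberField K] [IsCyclotomicExtension {3} ℚ K]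
    {GF : Subfield ℂ → Prop}
    (hG : ∀ (F : Subfield ℂ) (_ : NumberField F), Module.finrank ℚ F = 3 → IsGalois ℚ F →
      ∀ u v : ℕ, IsPair' F u v → (GF F ↔ Gr K (u, v))) :
    Tendsto (fun X : ℕ => ({F : Subfield ℂ | Cyr X F ∧ GF F}.ncard : ℝ) /
      ({F : Subfield ℂ | Cyr X F}.ncard : ℝ)) atTop (nhds Pool.Agent.Y703.CX.c3) := by
  refine ((ratio (tr_Gr (K := K))).comp tendsto_div9).congr fun X => ?_
  have e := card_fields' (Gp := fun _ => True) (GF := fun _ => True) X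
    (fun _ _ _ _ _ _ _ => Iff.rfl)
  simp only [and_true, filter_true] at e
  rw [e, card_fields' X hG]
  rfl

end Run7.h238.R
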