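import Pool.Agent.Run7.h289.RD.R5
import Pool.Agent.Run7.h238.X.Fld
import Pool.Agent.Run7.h238.R.Cnt

/-!
# Cyclic cubic subfields of the complex numbers in which `3` ramifies, and pairs
-/

set_option autoImplicit false
set_option linter.unusedVariables false

open scoped Classical

namespace Run7.h238.R

open NumberField Finset
open Pool.Agent.Run7.h289.RD (IsPair' field_of' pair_of' iso_of')
open Run7.h238.X (sub_le)

/-- `F` is a cyclic cubic field of conductor at most `X`, in which `3` ramifies -/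
def Cyr (X : ℕ) (F : Subfield ℂ) : Prop :=
  ∃ _ : NumberField F, Module.finrank ℚ F = 3 ∧ IsGalois ℚ F ∧ (3 : ℤ) ∣ discr F ∧
    discr F ≤ (X : ℤ) ^ 2

theorem sub_eq' {F F' : Subfield ℂ} [NumberField F] [NumberField F'] [IsGalois ℚ F]
    [IsGalois ℚ F'] {u v : ℕ} (hd : Module.finrank ℚ F = 3) (hd' : Module.finrank ℚ F' = 3)
    (h : IsPair' F u v) (h' : IsPair' F' u v) : F = F' := by
  obtain ⟨e⟩ := iso_of' hd hd' h h'
  exact le_antisymm (sub_le e.symm) (sub_le e)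

/-- the subfield of a pair -/
theorem exists_sub' {u v n : ℕ} (hu : 0 < u) (hv : 0 < v) (hn : 4 * n = u ^ 2 + 3 * v ^ 2)
    (hsq : Squarefree n) (h3n : ¬ 3 ∣ n) (h3v : ¬ 3 ∣ v) :
    ∃ (F : Subfield ℂ) (_ : NumberField F), Module.finrank ℚ F = 3 ∧
      IsGalois ℚ F ∧ discr F = (9 * (n : ℤ)) ^ 2 ∧ IsPair' F u v := by
  obtain ⟨F₀, i1, i2, hd, hg, hdisc, th, hth⟩ := field_of' hn hsq h3n h3v
  let φ : F₀ →+* ℂ := (IsAlgClosed.lift (R := ℚ) (S := F₀) (M := ℂ)).toRingHom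
  let e : F₀ ≃+* φ.fieldRange := RingHom.rangeRestrictFieldEquiv φ
  have hN : NumberField φ.fieldRange := NumberField.of_ringEquiv _ _ e
  let e' : F₀ ≃ₐ[ℚ] φ.fieldRange := RingEquiv.toRatAlgEquiv e
  have hd' : Module.finrank ℚ φ.fieldRange = 3 := by
    rw [← hd]
    exact e'.toLinearEquiv.finrank_eq.symm
  have hdisc' : discr φ.fieldRange = (9 * (n : ℤ)) ^ 2 := by
    rw [← hdisc]
    exact (discr_eq_discr_of_ringEquiv _ e).symm
  refine ⟨φ.fieldRange, hN, hd', IsGalois.of_algEquiv e', hdisc', hu, hv, h3v, n, hn, hsq, h3n,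
    hdisc', e th, ?_⟩
  have h1 := congrArg e hth
  simp only [map_pow, map_add, map_mul, map_natCast, map_ofNat] at h1
  exact h1

section
variable {Gp : ℕ × ℕ → Prop} {GF : Subfield ℂ → Prop}

/-- **the number of the fields is the number of the pairs** -/
theorem card_fields' (X : ℕ)
    (hG : ∀ (F : Subfield ℂ) (_ : NumberField F), Module.finrank ℚ F = 3 → IsGalois ℚ F →
      ∀ u v : ℕ, IsPair' F u v → (GF F ↔ Gp (u, v))) :
    {F : Subfield ℂ | Cyr X F ∧ GF F}.ncard = ((PM (X / 9)).filter Gp).card := by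
  have hex : ∀ F : Subfield ℂ, Cyr X F → ∃ b : ℕ × ℕ, ∃ _ : NumberField F, IsPair' F b.1 b.2 := by
    rintro F ⟨hN, hd, hg, h3, hX⟩
    obtain ⟨b, hb, -⟩ := pair_of' F hd h3
    exact ⟨b, hN, hb⟩
  choose! f hf using hex
  rw [← Set.ncard_coe_finset]
  refine Set.ncard_congr (fun F _ => f F) ?_ ?_ ?_
  · rintro F ⟨hF, hGF⟩
    obtain ⟨hN, hp⟩ := hf F hF
    obtain ⟨hN', hd, hg, h3, hX⟩ := hF
    rw [mem_coe, mem_filter, mem_PM]
    refine ⟨?_, (hG F hN hd hg _ _ hp).1 hGF⟩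
    obtain ⟨hu, hv, h3v, n, hn, hsq, h3n, hdisc, -⟩ := hp
    refine ⟨hu, hv, h3v, n, ?_, hsq, h3n, hn⟩
    have h1 : (9 * (n : ℤ)) ^ 2 ≤ (X : ℤ) ^ 2 := hdisc ▸ hX
    have h2 : (9 * n) ^ 2 ≤ X ^ 2 := by exact_mod_cast h1
    have h4 : 9 * n ≤ X := (Nat.pow_le_pow_iff_left (by norm_num)).1 h2
    omega
  · rintro F F' ⟨hF, -⟩ ⟨hF', -⟩ hff
    obtain ⟨hN, hp⟩ := hf F hF
    obtain ⟨hN', hp'⟩ := hf F' hF'
    obtain ⟨-, hd, hg, -, -⟩ := hF
    obtain ⟨-, hd', hg', -, -⟩ := hF'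
    have hff' : f F = f F' := hff
    rw [← hff'] at hp'
    exact sub_eq' hd hd' hp hp'
  · rintro ⟨u, v⟩ hb
    rw [mem_coe, mem_filter, mem_PM] at hb
    obtain ⟨⟨hu, hv, h3v, n, hnX, hsq, h3n, hn⟩, hGp⟩ := hb
    obtain ⟨F, hN, hd, hg, hdisc, hp⟩ := exists_sub' hu hv hn hsq h3n h3v
    have h3 : (3 : ℤ) ∣ discr F := by
      rw [hdisc]
      exact ⟨27 * (n : ℤ) ^ 2, by ring⟩
    have hc : Cyr X F := by
      refine ⟨hN, hd, hg, h3, ?_⟩
      rw [hdisc]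
      have : (9 * n) ^ 2 ≤ X ^ 2 := Nat.pow_le_pow_left (by omega) 2
      exact_mod_cast this
    refine ⟨F, ⟨hc, (hG F hN hd hg u v hp).2 hGp⟩, ?_⟩
    obtain ⟨hN', hp'⟩ := hf F hc
    obtain ⟨b, -, hb⟩ := pair_of' F hd h3
    have h1 := hb (f F) hp'
    have h2 := hb (u, v) hp
    show f F = (u, v)
    rw [h1, h2]

end

end Run7.h238.R
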